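import Mathlib
import Pool.Agent.Lib.MP_60829e_nt.BezIsol

/-!
The number of nonsingular zeros of a system of polynomials of degree at most `D` in `r` variables
is at most `D ^ r`, over every field; and over a finite field with `q` elements the number of zeros
at which the kernel of the differential has dimension at most `d` is at most `2 ^ r D ^ r q ^ d`.
-/

open MvPolynomial Module

namespace MPf80667.HB

section taylor

variable {K : Type*} [Field K] {r : ℕ}

/-- The derivative of a polynomial in the direction `v`. -/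
noncomputable def dirD (v : Fin r → K) :
    Derivation K (MvPolynomial (Fin r) K) (MvPolynomial (Fin r) K) :=
  ∑ j, v j • pderiv j

theorem dirD_apply (v : Fin r → K) (f : MvPolynomial (Fin r) K) :
    dirD v f = ∑ j, v j • pderiv j f := by
  simp only [dirD]
  rw [← Derivation.coeFnAddMonoidHom_apply, map_sum, Finset.sum_apply]
  rfl

theorem dirD_X (v : Fin r → K) (j : Fin r) : dirD v (X j) = C (v j) := by
  rw [dirD_apply]
  simp only [pderiv_X]
  rw [Finset.sum_eq_single j]
  · simp [smul_eq_C_mul]
  · intro i _ hi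
    simp [hi]
  · intro h
    exact absurd (Finset.mem_univ _) h

theorem eval_dirD (v P : Fin r → K) (f : MvPolynomial (Fin r) K) :
    eval P (dirD v f) = ∑ j, v j * eval P (pderiv j f) := by
  rw [dirD_apply, map_sum]
  simp only [smul_eval]

/-- Taylor's formula of the first order. -/
theorem taylor (P : Fin r → K) (f : MvPolynomial (Fin r) K) :
    f - C (eval P f) - ∑ j, C (eval P (pderiv j f)) * (X j - C (P j)) ∈ Bez.mid P ^ 2 := by
  induction f using MvPolynomial.induction_on with
  | C a => simp
  | add f g hf hg =>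
    have h := Ideal.add_mem _ hf hg
    convert h using 1
    simp only [map_add, add_mul, Finset.sum_add_distrib]
    ring
  | mul_X f n hf =>
    have h1 := Ideal.mul_mem_right (C (P n)) _ hf
    have h2 : (f - C (eval P f)) * (X n - C (P n)) ∈ Bez.mid P ^ 2 := by
      rw [pow_two]
      refine Ideal.mul_mem_mul ?_ ?_
      · rw [Bez.mem_mid]
        simp
      · rw [Bez.mem_mid]
        simp
    have h := Ideal.add_mem _ h1 h2
    convert h using 1
    have h3 : ∑ j, C (eval P (pderiv j (f * X n))) * (X j - C (P j)) =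
        (∑ j, C (eval P (pderiv j f)) * (X j - C (P j))) * C (P n) +
          C (eval P f) * (X n - C (P n)) := by
      rw [Finset.sum_mul]
      have h4 : ∀ j, C (eval P (pderiv j (f * X n))) * (X j - C (P j)) =
          C (eval P (pderiv j f)) * (X j - C (P j)) * C (P n) +
            (if j = n then C (eval P f) * (X n - C (P n)) else 0) := by
        intro j
        rw [Derivation.leibniz]
        split_ifs with hjn
        · subst hjn
          simp only [pderiv_X_self, smul_eq_mul, mul_one, map_add, map_mul, eval_X]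
          ring
        · rw [pderiv_X_of_ne (fun h => hjn h.symm)]
          simp only [smul_eq_mul, mul_zero, map_add, map_mul, eval_X, map_zero]
          ring
      simp only [h4, Finset.sum_add_distrib, Finset.sum_ite_eq', Finset.mem_univ, if_true]
    rw [h3]
    simp only [map_mul, eval_X]
    ring

end taylor

section nonsing

variable {K : Type*} [Field K] {r : ℕ}

/-- The kernel of the differential at `P` of the system `F`. -/
def jker {ι : Type*} (F : ι → MvPolynomial (Fin r) K) (P : Fin r → K) :
    Submodule K (Fin r → K) where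
  carrier := {v | ∀ i, eval P (dirD v (F i)) = 0}
  zero_mem' := by
    intro i
    simp [eval_dirD]
  add_mem' := by
    intro v w hv hw i
    have h1 := hv i
    have h2 := hw i
    rw [eval_dirD] at h1 h2 ⊢
    simp only [Pi.add_apply, add_mul, Finset.sum_add_distrib, h1, h2, add_zero]
  smul_mem' := by
    intro c v hv i
    have h1 := hv i
    rw [eval_dirD] at h1 ⊢
    simp only [Pi.smul_apply, smul_eq_mul, mul_assoc, ← Finset.mul_sum, h1, mul_zero]

theorem mem_jker {ι : Type*} {F : ι → MvPolynomial (Fin r) K} {P v : Fin r → K} :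
    v ∈ jker F P ↔ ∀ i, eval P (dirD v (F i)) = 0 := Iff.rfl

/-- At a nonsingular zero the system generates the maximal ideal modulo its square. -/
theorem mid_le {ι : Type*} (F : ι → MvPolynomial (Fin r) K) (P : Fin r → K)
    (hz : ∀ i, eval P (F i) = 0) (hJ : jker F P = ⊥) (j : Fin r) :
    X j - C (P j) ∈ Ideal.span (Set.range F) ⊔ Bez.mid P ^ 2 := by
  set W : Ideal (MvPolynomial (Fin r) K) := Ideal.span (Set.range F) ⊔ Bez.mid P ^ 2 with hW
  -- the gradients
  let T : Submodule K (Fin r → K) :=
    { carrier := {g | ∑ j, C (g j) * (X j - C (P j)) ∈ W}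
      zero_mem' := by simp
      add_mem' := by
        intro g h hg hh
        have := W.add_mem (show _ ∈ W from hg) (show _ ∈ W from hh)
        change _ ∈ W
        convert this using 1
        simp only [Pi.add_apply, map_add, add_mul, Finset.sum_add_distrib]
      smul_mem' := by
        intro c g hg
        have := W.mul_mem_left (C c) (show _ ∈ W from hg)
        change _ ∈ W
        convert this using 1
        simp only [Pi.smul_apply, smul_eq_mul, map_mul, Finset.mul_sum, mul_assoc] }
  have hT : ∀ i, (fun j => eval P (pderiv j (F i))) ∈ T := by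
    intro i
    have h1 := taylor P (F i)
    rw [hz i, map_zero, sub_zero] at h1
    have h2 : F i ∈ W := Ideal.mem_sup_left (Ideal.subset_span ⟨i, rfl⟩)
    have h3 := Ideal.sub_mem W h2 (Ideal.mem_sup_right h1)
    change ∑ j, C (eval P (pderiv j (F i))) * (X j - C (P j)) ∈ W
    convert h3 using 1
    ring
  have htop : T = ⊤ := by
    by_contra hne
    obtain ⟨f, hf0, hf⟩ := Submodule.exists_le_ker_of_lt_top T (lt_top_iff_ne_top.mpr hne)
    have hv : (fun j => f (Pi.single j 1)) ∈ jker F P := by
      intro i
      have h1 := hf (hT i)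
      rw [LinearMap.mem_ker] at h1
      rw [eval_dirD]
      have h2 : (fun j => eval P (pderiv j (F i))) =
          ∑ j, eval P (pderiv j (F i)) • (Pi.single j 1 : Fin r → K) := by
        funext k
        simp [Finset.sum_apply, Pi.single_apply]
      rw [h2, map_sum] at h1
      simp only [map_smul, smul_eq_mul] at h1
      rw [← h1]
      exact Finset.sum_congr rfl fun j _ => mul_comm _ _
    rw [hJ, Submodule.mem_bot] at hv
    apply hf0
    refine LinearMap.pi_ext' fun j => ?_
    ext
    simpa using congrFun hv j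
  have h1 : (Pi.single j 1 : Fin r → K) ∈ T := by rw [htop]; trivial
  have h2 : ∑ k, C ((Pi.single j 1 : Fin r → K) k) * (X k - C (P k)) ∈ W := h1
  rw [Finset.sum_eq_single j] at h2
  · simpa using h2
  · intro k _ hk
    simp [hk]
  · intro h
    exact absurd (Finset.mem_univ _) h

/-- A nonsingular zero is isolated. -/
theorem isolated_of {K : Type*} [Field K] {r : ℕ} (F : Set (MvPolynomial (Fin r) K))
    (P : Fin r → K)
    (h : ∀ j, X j - C (P j) ∈ Ideal.span F ⊔ Bez.mid P ^ 2) (q : Ideal (MvPolynomial (Fin r) K))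
    (hq : q.IsPrime) (hFq : F ⊆ q) (hqP : q ≤ Bez.mid P) : q = Bez.mid P := by
  have hmid : Bez.mid P ≤ Ideal.span F ⊔ Bez.mid P ^ 2 := by
    intro f hf
    have h1 := taylor P f
    rw [Bez.mem_mid.1 hf, map_zero, sub_zero] at h1
    have h2 : ∑ j, C (eval P (pderiv j f)) * (X j - C (P j)) ∈ Ideal.span F ⊔ Bez.mid P ^ 2 :=
      Ideal.sum_mem _ fun j _ => Ideal.mul_mem_left _ _ (h j)
    have h3 := Ideal.add_mem _ (Ideal.mem_sup_right h1 : _ ∈ Ideal.span F ⊔ Bez.mid P ^ 2) h2
    simpa using h3
  refine le_antisymm hqP ?_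
  -- Nakayama in the quotient by `q`
  set π := Ideal.Quotient.mk q
  set m' := (Bez.mid P).map π with hm'
  have hsq : m' • m' = (Bez.mid P ^ 2).map π := by
    rw [Ideal.map_pow, pow_two, smul_eq_mul]
  have hle : m' ≤ m' • m' := by
    rw [hsq, hm', Ideal.map_le_iff_le_comap]
    intro f hf
    have h1 := hmid hf
    obtain ⟨a, ha, b, hb, rfl⟩ := Submodule.mem_sup.1 h1
    have ha' : π a = 0 := by
      rw [Ideal.Quotient.eq_zero_iff_mem]
      exact (Ideal.span_le.2 hFq) ha
    rw [Ideal.mem_comap, map_add, ha', zero_add]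
    exact Ideal.mem_map_of_mem _ hb
  obtain ⟨x, hx, hx'⟩ := Submodule.exists_sub_one_mem_and_smul_eq_zero_of_fg_of_le_smul m' m'
    (Ideal.FG.map (IsNoetherian.noetherian _) _) hle
  have hx0 : x ≠ 0 := by
    rintro rfl
    have h1 : (1 : MvPolynomial (Fin r) K ⧸ q) ∈ m' := by
      have := Submodule.neg_mem _ hx
      simpa using this
    have h2 : (1 : MvPolynomial (Fin r) K) ∈ Bez.mid P := by
      have h3 : (π 1) ∈ m' := by simpa using h1
      rw [hm', ← Ideal.mem_comap, Ideal.comap_map_of_surjective π Ideal.Quotient.mk_surjective]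
        at h3
      obtain ⟨a, ha, b, hb, hab⟩ := Submodule.mem_sup.1 h3
      rw [← hab]
      refine Ideal.add_mem _ ha (hqP ?_)
      have : π b = 0 := by simpa [Ideal.mem_comap] using hb
      rwa [Ideal.Quotient.eq_zero_iff_mem] at this
    rw [Bez.mem_mid] at h2
    simp at h2
  intro f hf
  have h1 := hx' (π f) (Ideal.mem_map_of_mem _ hf)
  rw [smul_eq_mul, mul_eq_zero] at h1
  have h2 := h1.resolve_left hx0
  rwa [Ideal.Quotient.eq_zero_iff_mem] at h2

/-- The number of nonsingular zeros of a system of polynomials of degree at most `D`. -/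
theorem nonsing_bound {K : Type*} [Field K] {r : ℕ} {ι : Type*} (F : ι → MvPolynomial (Fin r) K)
    (D : ℕ) (hD : ∀ i, (F i).totalDegree ≤ D) (S : Finset (Fin r → K))
    (hz : ∀ P ∈ S, ∀ i, eval P (F i) = 0) (hJ : ∀ P ∈ S, jker F P = ⊥) : S.card ≤ D ^ r := by
  classical
  set L := AlgebraicClosure K
  set φ : K →+* L := algebraMap K L
  have hφ : Function.Injective φ := φ.injective
  have hinj : Function.Injective fun (P : Fin r → K) => (φ ∘ P : Fin r → L) := by
    intro P Q h
    funext j
    exact hφ (congrFun h j)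
  have h := Bez.isolated_bound (k := L) (σ := Fin r)
    (Set.range fun i => MvPolynomial.map φ (F i)) D ?_
    (S.image fun P => (φ ∘ P : Fin r → L)) ?_ ?_
  · rw [Finset.card_image_of_injective _ hinj] at h
    simpa using h
  · rintro _ ⟨i, rfl⟩
    exact (Finset.sup_mono (support_map_subset _ _)).trans (hD i)
  · intro P' hP'
    obtain ⟨P, hP, rfl⟩ := Finset.mem_image.1 hP'
    rintro _ ⟨i, rfl⟩
    rw [eval_map, ← eval₂_comp]
    simp [hz P hP i]
  · intro P' hP'
    obtain ⟨P, hP, rfl⟩ := Finset.mem_image.1 hP'
    refine isolated_of _ _ ?_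
    intro j
    have h1 := mid_le F P (hz P hP) (hJ P hP) j
    have h2 := Ideal.mem_map_of_mem (MvPolynomial.map φ) h1
    rw [Ideal.map_sup, Ideal.map_span, Ideal.map_pow, ← Set.range_comp] at h2
    simp only [map_sub, map_X, map_C] at h2
    have h3 : (Bez.mid P).map (MvPolynomial.map φ) ≤ Bez.mid (φ ∘ P : Fin r → L) := by
      rw [Ideal.map_le_iff_le_comap]
      intro f hf
      rw [Ideal.mem_comap, Bez.mem_mid, eval_map, ← eval₂_comp, Bez.mem_mid.1 hf]
      simp
    obtain ⟨a, ha, b, hb, hab⟩ := Submodule.mem_sup.1 h2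
    rw [Submodule.mem_sup]
    exact ⟨a, ha, b, Ideal.pow_right_mono h3 2 hb, hab⟩

end nonsing

end MPf80667.HB
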