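import Mathlib
import Pool.Agent.Lib.MP_f80667_ag.HB.Bez

/-!
Over a finite field with `q` elements the number of common zeros in `r`-space of polynomials of
degree at most `D` at which the kernel of the differential has dimension at most `d` is at most
`2 ^ r * D ^ r * q ^ d`.
-/

open MvPolynomial Module

namespace MPf80667.HB

/-- A subspace of dimension `d` is determined by at most `d` coordinates. -/
theorem exists_coords {K : Type*} [Field K] {r : ℕ} (n : ℕ) (W : Submodule K (Fin r → K))
    (hW : finrank K W ≤ n) :
    ∃ J : Finset (Fin r), J.card ≤ n ∧ ∀ v ∈ W, (∀ j ∈ J, v j = 0) → v = 0 := by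
  classical
  induction n generalizing W with
  | zero =>
    refine ⟨∅, by simp, fun v hv _ => ?_⟩
    have h : W = ⊥ := Submodule.finrank_eq_zero.1 (Nat.le_zero.1 hW)
    rw [h] at hv
    exact (Submodule.mem_bot K).1 hv
  | succ n ih =>
    by_cases hb : W = ⊥
    · refine ⟨∅, by simp, fun v hv _ => ?_⟩
      rw [hb] at hv
      exact (Submodule.mem_bot K).1 hv
    · obtain ⟨v, hv, hv0⟩ := Submodule.exists_mem_ne_zero_of_ne_bot hb
      obtain ⟨j, hj⟩ : ∃ j, v j ≠ 0 := by
        by_contra h
        push Not at h
        exact hv0 (funext h)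
      have hlt : W ⊓ LinearMap.ker (LinearMap.proj j : (Fin r → K) →ₗ[K] K) < W := by
        refine lt_of_le_of_ne inf_le_left fun h => hj ?_
        have h1 : v ∈ W ⊓ LinearMap.ker (LinearMap.proj j : (Fin r → K) →ₗ[K] K) := by rwa [h]
        simpa using h1.2
      have h1 := Submodule.finrank_lt_finrank_of_lt hlt
      obtain ⟨J, hJ, hJ'⟩ := ih (W ⊓ LinearMap.ker (LinearMap.proj j : (Fin r → K) →ₗ[K] K))
        (by omega)
      refine ⟨insert j J, (Finset.card_insert_le _ _).trans (by omega), fun w hw h => ?_⟩
      refine hJ' w ⟨hw, ?_⟩ fun i hi => h i (Finset.mem_insert_of_mem hi)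
      simpa using h j (Finset.mem_insert_self _ _)

/-- The number of vectors supported in `J`. -/
theorem card_supp {K : Type*} [Field K] [Fintype K] [DecidableEq K] {r : ℕ} (J : Finset (Fin r)) :
    (Finset.univ.filter fun c : Fin r → K => ∀ j, j ∉ J → c j = 0).card ≤
      (Fintype.card K) ^ J.card := by
  classical
  have h : (Finset.univ.filter fun c : Fin r → K => ∀ j, j ∉ J → c j = 0).card ≤
      (Finset.univ : Finset (J → K)).card := by
    refine Finset.card_le_card_of_injOn (fun c j => c j.1) (fun _ _ => Finset.mem_univ _) ?_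
    intro c hc c' hc' h
    simp only [Finset.coe_filter, Finset.mem_univ, true_and, Set.mem_ofPred_eq] at hc hc'
    funext j
    by_cases hj : j ∈ J
    · exact congrFun h ⟨j, hj⟩
    · rw [hc j hj, hc' j hj]
  refine h.trans (le_of_eq ?_)
  rw [Finset.card_univ, Fintype.card_fun, Fintype.card_coe]

/-- The number of zeros at which the kernel of the differential has dimension at most `d`. -/
theorem count_rank {K : Type*} [Field K] [Fintype K] {r : ℕ} {ι : Type*}
    (F : ι → MvPolynomial (Fin r) K) (D : ℕ) (hD1 : 1 ≤ D) (hD : ∀ i, (F i).totalDegree ≤ D)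
    (d : ℕ) (S : Finset (Fin r → K)) (hz : ∀ x ∈ S, ∀ i, eval x (F i) = 0)
    (hJ : ∀ x ∈ S, finrank K (jker F x) ≤ d) :
    S.card ≤ 2 ^ r * D ^ r * (Fintype.card K) ^ d := by
  classical
  choose! J hJ1 hJ2 using fun x (hx : x ∈ S) => exists_coords d (jker F x) (hJ x hx)
  set T : Finset (Finset (Fin r) × (Fin r → K)) :=
    Finset.univ.filter fun p => p.1.card ≤ d ∧ ∀ j, j ∉ p.1 → p.2 j = 0 with hT
  have hTc : T.card ≤ (Fintype.card K) ^ d * 2 ^ r := by
    have h := Finset.card_le_mul_card_image_of_maps_to (s := T) (f := Prod.fst)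
      (t := (Finset.univ : Finset (Finset (Fin r)))) (fun _ _ => Finset.mem_univ _)
      ((Fintype.card K) ^ d) ?_
    · simpa using h
    · intro J _
      by_cases hJd : J.card ≤ d
      · refine le_trans ?_ ((card_supp (K := K) J).trans
          (Nat.pow_le_pow_right Fintype.card_pos hJd))
        refine Finset.card_le_card_of_injOn Prod.snd ?_ ?_
        · intro p hp
          simp only [hT, Finset.coe_filter, Finset.mem_filter, Finset.mem_univ, true_and,
            Set.mem_ofPred_eq] at hp ⊢
          obtain ⟨⟨_, hp2⟩, rfl⟩ := hp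
          exact hp2
        · intro p hp p' hp' h
          simp only [Finset.coe_filter, Set.mem_ofPred_eq] at hp hp'
          exact Prod.ext (hp.2.trans hp'.2.symm) h
      · have h0 : T.filter (fun p => p.1 = J) = ∅ := by
          refine Finset.filter_eq_empty_iff.2 ?_
          rintro p hp rfl
          simp only [hT, Finset.mem_filter, Finset.mem_univ, true_and] at hp
          exact hJd hp.1
        rw [h0]
        simp
  have hmain := Finset.card_le_mul_card_image_of_maps_to (s := S) (t := T)
    (f := fun x => (J x, fun j => if j ∈ J x then x j else 0)) ?_ (D ^ r) ?_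
  · refine hmain.trans ?_
    calc D ^ r * T.card ≤ D ^ r * ((Fintype.card K) ^ d * 2 ^ r) := Nat.mul_le_mul_left _ hTc
      _ = 2 ^ r * D ^ r * (Fintype.card K) ^ d := by ring
  · intro x hx
    simp only [hT, Finset.mem_filter, Finset.mem_univ, true_and]
    refine ⟨hJ1 x hx, fun j hj => ?_⟩
    simp [hj]
  · rintro ⟨I, c⟩ _
    refine nonsing_bound (Sum.elim F fun j : I => X j.1 - C (c j.1)) D ?_ _ ?_ ?_
    · rintro (i | j)
      · exact hD i
      · refine le_trans ?_ hD1
        refine (totalDegree_sub _ _).trans ?_
        rw [totalDegree_C, totalDegree_X]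
        simp
    · intro x hx i
      rw [Finset.mem_filter] at hx
      obtain ⟨hxS, hx2⟩ := hx
      rw [Prod.mk.injEq] at hx2
      rcases i with i | j
      · exact hz x hxS i
      · have h1 := congrFun hx2.2 j.1
        have h2 : j.1 ∈ J x := by rw [hx2.1]; exact j.2
        simp only [h2, if_true] at h1
        simp [h1]
    · intro x hx
      rw [Finset.mem_filter] at hx
      obtain ⟨hxS, hx2⟩ := hx
      rw [Prod.mk.injEq] at hx2
      rw [Submodule.eq_bot_iff]
      intro v hv
      refine hJ2 x hxS v (fun i => hv (Sum.inl i)) fun j hj => ?_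
      rw [hx2.1] at hj
      have h1 := hv (Sum.inr ⟨j, hj⟩)
      simp only [Sum.elim_inr, map_sub, dirD_X, eval_C] at h1
      have h2 : dirD v (C (c j)) = 0 := by
        rw [← MvPolynomial.algebraMap_eq]
        exact (dirD v).map_algebraMap _
      rw [h2] at h1
      simpa using h1

end MPf80667.HB
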