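import Mathlib

/-!
Degrees of determinants and adjugates of matrices of linear polynomials.
-/

open MvPolynomial

namespace MPf80667.HB

variable {K : Type*} [Field K] {σ : Type*}

theorem deg_det {ι : Type*} [Fintype ι] [DecidableEq ι] (N : Matrix ι ι (MvPolynomial σ K))
    (h : ∀ i j, (N i j).totalDegree ≤ 1) : N.det.totalDegree ≤ Fintype.card ι := by
  rw [Matrix.det_apply]
  refine totalDegree_finsetSum_le fun s _ => ?_
  refine (totalDegree_smul_le _ _).trans ?_
  refine (totalDegree_finsetProd _ _).trans ?_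
  refine (Finset.sum_le_sum fun i _ => h _ _).trans ?_
  simp

theorem deg_adj {ι : Type*} [Fintype ι] [DecidableEq ι] (N : Matrix ι ι (MvPolynomial σ K))
    (h : ∀ i j, (N i j).totalDegree ≤ 1) (i j : ι) :
    (N.adjugate i j).totalDegree ≤ Fintype.card ι := by
  rw [Matrix.adjugate_apply]
  refine deg_det _ fun a b => ?_
  rw [Matrix.updateRow_apply]
  split_ifs
  · rw [Pi.single_apply]
    split_ifs <;> simp
  · exact h a b

theorem deg_mulVec {ι κ : Type*} [Fintype κ] (N : Matrix ι κ (MvPolynomial σ K))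
    (v : κ → MvPolynomial σ K) {a b : ℕ} (hN : ∀ i j, (N i j).totalDegree ≤ a)
    (hv : ∀ j, (v j).totalDegree ≤ b) (i : ι) : ((N.mulVec v) i).totalDegree ≤ a + b := by
  rw [Matrix.mulVec, dotProduct]
  exact totalDegree_finsetSum_le fun j _ =>
    (totalDegree_mul _ _).trans (Nat.add_le_add (hN i j) (hv j))

theorem deg_dot {κ : Type*} [Fintype κ] (u v : κ → MvPolynomial σ K) {a b : ℕ}
    (hu : ∀ j, (u j).totalDegree ≤ a) (hv : ∀ j, (v j).totalDegree ≤ b) :
    (u ⬝ᵥ v).totalDegree ≤ a + b := by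
  rw [dotProduct]
  exact totalDegree_finsetSum_le fun j _ =>
    (totalDegree_mul _ _).trans (Nat.add_le_add (hu j) (hv j))

end MPf80667.HB
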