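import Mathlib
import Pool.Agent.Lib.MP_f80667_ag.Frm
import Pool.Agent.Lib.MP_f80667_ag.HB.Cnt
import Pool.Agent.Lib.MP_f80667_ag.HB.Deg

/-!
Schur complement vectors of a linear family of quadratic forms, as vectors of polynomials in the
parameters of the family.
-/

open MvPolynomial Module Matrix

namespace MPf80667.HB

open MP_f80667_ag.Frm

section poly

variable {F : Type*} [Field F] {r m : ℕ} (a : Fin r → Matrix (Fin m) (Fin m) F)

/-- The generic member of the family. -/
noncomputable def gA : Matrix (Fin m) (Fin m) (MvPolynomial (Fin r) F) :=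
  Matrix.of fun i j => ∑ k, C (a k i j) * X k

/-- The polar form of the generic member. -/
noncomputable def gG : Matrix (Fin m) (Fin m) (MvPolynomial (Fin r) F) := gA a + (gA a)ᵀ

/-- The member of the family with the parameters `ν`. -/
def mA (ν : Fin r → F) : Matrix (Fin m) (Fin m) F := ∑ k, ν k • a k

/-- Its polar form. -/
def mG (ν : Fin r → F) : Matrix (Fin m) (Fin m) F := mA a ν + (mA a ν)ᵀ

theorem mG_symm (ν : Fin r → F) : (mG a ν)ᵀ = mG a ν := by
  rw [mG, transpose_add, transpose_transpose, add_comm]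

theorem eval_gA (ν : Fin r → F) : (gA a).map (eval ν) = mA a ν := by
  ext i j
  simp only [gA, mA, map_apply, of_apply, map_sum, map_mul, eval_C, eval_X, Matrix.sum_apply,
    Matrix.smul_apply, smul_eq_mul]
  exact Finset.sum_congr rfl fun k _ => mul_comm _ _

theorem eval_gG (ν : Fin r → F) : (gG a).map (eval ν) = mG a ν := by
  rw [gG, mG, ← eval_gA]
  ext i j
  simp

theorem dirD_gA (k : Fin r → F) (i j : Fin m) : dirD k (gA a i j) = C (mA a k i j) := by
  simp only [gA, mA, of_apply, map_sum, Matrix.sum_apply, Matrix.smul_apply, smul_eq_mul, map_mul]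
  refine Finset.sum_congr rfl fun l _ => ?_
  rw [Derivation.leibniz, dirD_X]
  have h2 : dirD k (C (a l i j)) = 0 := by
    rw [← MvPolynomial.algebraMap_eq]
    exact (dirD k).map_algebraMap _
  rw [h2, smul_zero, add_zero, smul_eq_mul, mul_comm]

theorem dirD_gG (k : Fin r → F) (i j : Fin m) : dirD k (gG a i j) = C (mG a k i j) := by
  simp only [gG, mG, Matrix.add_apply, transpose_apply, map_add, dirD_gA]

variable (J : Finset (Fin m))

/-- The block of the polar form outside `J`. -/
noncomputable def gM : Matrix {i // i ∉ J} {i // i ∉ J} (MvPolynomial (Fin r) F) :=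
  (gG a).submatrix Subtype.val Subtype.val

/-- The coefficients of the Schur complement vectors. -/
noncomputable def gw (s : Fin m) : {i // i ∉ J} → MvPolynomial (Fin r) F :=
  (gM a J).adjugate *ᵥ fun i => gG a i.1 s

/-- The Schur complement vectors. -/
noncomputable def gu (s : Fin m) : Fin m → MvPolynomial (Fin r) F :=
  (gM a J).det • Pi.single s 1 - ∑ i, gw a J s i • Pi.single i.1 1

theorem gG_mulVec_gu (s : Fin m) (j : Fin m) (hj : j ∉ J) : (gG a *ᵥ gu a J s) j = 0 := by
  have h1 : gG a *ᵥ gu a J s =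
      (gM a J).det • (fun i => gG a i s) - ∑ i, gw a J s i • fun t => gG a t i.1 := by
    rw [gu, mulVec_sub, mulVec_smul, mulVec_sum]
    simp only [mulVec_smul, mulVec_single_one]
    rfl
  have h2 : (gM a J *ᵥ gw a J s) ⟨j, hj⟩ = (gM a J).det * gG a j s := by
    rw [gw, mulVec_mulVec, mul_adjugate, smul_mulVec, one_mulVec]
    rfl
  have h3 : (gM a J *ᵥ gw a J s) ⟨j, hj⟩ = ∑ i, gw a J s i * gG a j i.1 := by
    rw [mulVec, dotProduct]
    exact Finset.sum_congr rfl fun i _ => mul_comm _ _
  rw [h1]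
  simp only [Pi.sub_apply, Pi.smul_apply, smul_eq_mul, Finset.sum_apply]
  rw [← h3, h2, sub_self]

theorem deg_gA (i j : Fin m) : (gA a i j).totalDegree ≤ 1 := by
  simp only [gA, of_apply]
  refine totalDegree_finsetSum_le fun k _ => (totalDegree_mul _ _).trans ?_
  rw [totalDegree_C, totalDegree_X]

theorem deg_gG (i j : Fin m) : (gG a i j).totalDegree ≤ 1 := by
  simp only [gG, Matrix.add_apply, transpose_apply]
  exact (totalDegree_add _ _).trans (max_le (deg_gA a i j) (deg_gA a j i))

theorem card_compl_le : Fintype.card {i // i ∉ J} ≤ m := by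
  have h := Fintype.card_subtype_le (fun i : Fin m => i ∉ J)
  rwa [Fintype.card_fin] at h

theorem deg_gu (s t : Fin m) : (gu a J s t).totalDegree ≤ m + 1 := by
  have hM : ∀ i j, (gM a J i j).totalDegree ≤ 1 := fun i j => deg_gG a _ _
  have hs : ∀ (i t : Fin m),
      ((Pi.single i 1 : Fin m → MvPolynomial (Fin r) F) t).totalDegree = 0 := by
    intro i t
    rw [Pi.single_apply]
    split_ifs <;> simp
  rw [gu]
  simp only [Pi.sub_apply, Pi.smul_apply, smul_eq_mul, Finset.sum_apply]
  refine (totalDegree_sub _ _).trans (max_le ?_ ?_)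
  · refine (totalDegree_mul _ _).trans ?_
    rw [hs]
    exact (Nat.add_le_add_right (deg_det _ hM) 0).trans
      (by have := card_compl_le (m := m) J; omega)
  · refine totalDegree_finsetSum_le fun i _ => (totalDegree_mul _ _).trans ?_
    rw [hs]
    have h := deg_mulVec (gM a J).adjugate (fun i => gG a i.1 s) (deg_adj _ hM)
      (fun j => deg_gG a j.1 s) i
    have h2 := card_compl_le (m := m) J
    rw [gw]
    omega

/-- The equations: the polar form. -/
noncomputable def fB (p : Fin m × Fin m) : MvPolynomial (Fin r) F :=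
  gu a J p.1 ⬝ᵥ (gG a *ᵥ gu a J p.2)

/-- The equations: the quadratic form. -/
noncomputable def fQ (s : Fin m) : MvPolynomial (Fin r) F :=
  gu a J s ⬝ᵥ (gA a *ᵥ gu a J s)

theorem deg_fB (p : Fin m × Fin m) : (fB a J p).totalDegree ≤ 2 * m + 3 := by
  have h := deg_dot (gu a J p.1) (gG a *ᵥ gu a J p.2) (deg_gu a J p.1)
    (deg_mulVec (gG a) _ (deg_gG a) (deg_gu a J p.2))
  rw [fB]
  omega

theorem deg_fQ (s : Fin m) : (fQ a J s).totalDegree ≤ 2 * m + 3 := by
  have h := deg_dot (gu a J s) (gA a *ᵥ gu a J s) (deg_gu a J s)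
    (deg_mulVec (gA a) _ (deg_gA a) (deg_gu a J s))
  rw [fQ]
  omega

/-- The value of the Schur complement vector. -/
noncomputable def mu (ν : Fin r → F) (s : Fin m) : Fin m → F := fun t => eval ν (gu a J s t)

theorem eval_mulVec_gG (ν : Fin r → F) (s j : Fin m) :
    eval ν ((gG a *ᵥ gu a J s) j) = (mG a ν *ᵥ mu a J ν s) j := by
  rw [RingHom.map_mulVec, eval_gG]
  rfl

theorem mG_mulVec_mu (ν : Fin r → F) (s j : Fin m) (hj : j ∉ J) :
    (mG a ν *ᵥ mu a J ν s) j = 0 := by
  rw [← eval_mulVec_gG, gG_mulVec_gu a J s j hj, map_zero]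

theorem eval_fB (ν : Fin r → F) (p : Fin m × Fin m) :
    eval ν (fB a J p) = mu a J ν p.1 ⬝ᵥ (mG a ν *ᵥ mu a J ν p.2) := by
  rw [fB, dotProduct, map_sum, dotProduct]
  refine Finset.sum_congr rfl fun i _ => ?_
  rw [map_mul, eval_mulVec_gG]
  rfl

theorem eval_fQ (ν : Fin r → F) (s : Fin m) :
    eval ν (fQ a J s) = mu a J ν s ⬝ᵥ (mA a ν *ᵥ mu a J ν s) := by
  rw [fQ, dotProduct, map_sum, dotProduct]
  refine Finset.sum_congr rfl fun i _ => ?_
  rw [map_mul, RingHom.map_mulVec, eval_gA]
  rfl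

/-- The derivative of a bilinear expression. -/
theorem der_dot (D : Derivation F (MvPolynomial (Fin r) F) (MvPolynomial (Fin r) F))
    (x y : Fin m → MvPolynomial (Fin r) F) (N : Matrix (Fin m) (Fin m) (MvPolynomial (Fin r) F)) :
    D (x ⬝ᵥ (N *ᵥ y)) = (fun i => D (x i)) ⬝ᵥ (N *ᵥ y) + x ⬝ᵥ ((N.map D) *ᵥ y) +
      x ⬝ᵥ (N *ᵥ fun i => D (y i)) := by
  simp only [dotProduct, mulVec, map_sum, Finset.mul_sum, map_apply]
  rw [← Finset.sum_add_distrib, ← Finset.sum_add_distrib]
  refine Finset.sum_congr rfl fun i _ => ?_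
  rw [← Finset.sum_add_distrib, ← Finset.sum_add_distrib]
  refine Finset.sum_congr rfl fun j _ => ?_
  rw [Derivation.leibniz, Derivation.leibniz]
  simp only [smul_eq_mul]
  ring

end poly

end MPf80667.HB
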