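import Mathlib
import Pool.Agent.Lib.MP_f80667_ag.HB.Schur

/-!
The counting lemma for linear families of quadratic forms over finite fields: the number of
parameters `ν` for which `Q ν` vanishes on its radical and the space of the parameters `k` with
`Q k = 0` on this radical has dimension `d` is at most `C q ^ d`, and the same for polar forms.
-/

open MvPolynomial Module Matrix

namespace MPf80667.HB

open MP_f80667_ag.Frm

section coord

variable {F : Type*} [Field F] {r m : ℕ} (a : Fin r → Matrix (Fin m) (Fin m) F)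

theorem ofMat_eq (ν : Fin r → F) (x : Fin m → F) : ofMat a ν x = x ⬝ᵥ (mA a ν *ᵥ x) :=
  ofMat_apply a ν x

theorem polar_eq (ν : Fin r → F) (x y : Fin m → F) :
    QuadraticMap.polar (ofMat a ν) x y = x ⬝ᵥ (mG a ν *ᵥ y) := polar_ofMat a ν x y

theorem dot_mG (ν : Fin r → F) (x y : Fin m → F) :
    x ⬝ᵥ (mG a ν *ᵥ y) = (mG a ν *ᵥ x) ⬝ᵥ y := by
  rw [dotProduct_mulVec, ← mulVec_transpose, mG_symm]

theorem mem_rad_iff {ν : Fin r → F} {x : Fin m → F} :
    x ∈ rad (ofMat a ν) ↔ mG a ν *ᵥ x = 0 := by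
  rw [mem_rad]
  simp only [polar_eq, dot_mG]
  exact dotProduct_eq_zero_iff

/-- The coordinates in `J` parametrise the radical of `Q ν`. -/
def Good (J : Finset (Fin m)) (ν : Fin r → F) : Prop :=
  (∀ x : Fin m → F, mG a ν *ᵥ x = 0 → (∀ j ∈ J, x j = 0) → x = 0) ∧
    ∀ y : Fin m → F, ∃ z : Fin m → F, mG a ν *ᵥ z = 0 ∧ ∀ j ∈ J, z j = y j

theorem exists_good (ν : Fin r → F) : ∃ J, Good a J ν := by
  classical
  obtain ⟨J, hJ, hJ'⟩ := exists_coords _ (rad (ofMat a ν)) le_rfl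
  refine ⟨J, fun x hx => hJ' x ((mem_rad_iff a).2 hx), ?_⟩
  let f : rad (ofMat a ν) →ₗ[F] (J → F) :=
    (LinearMap.funLeft F F (Subtype.val : J → Fin m)).comp (rad (ofMat a ν)).subtype
  have hf : Function.Injective f := by
    rw [← LinearMap.ker_eq_bot, Submodule.eq_bot_iff]
    intro x hx
    have h1 := hJ' x.1 x.2 fun j hj => congrFun (LinearMap.mem_ker.1 hx) ⟨j, hj⟩
    exact Subtype.ext h1
  have hdim : finrank F (rad (ofMat a ν)) = finrank F (J → F) := by
    have h1 := LinearMap.finrank_le_finrank_of_injective hf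
    rw [finrank_fintype_fun_eq_card, Fintype.card_coe] at h1 ⊢
    exact le_antisymm h1 hJ
  have hs := (LinearMap.injective_iff_surjective_of_finrank_eq_finrank hdim).1 hf
  intro y
  obtain ⟨z, hz⟩ := hs fun j => y j.1
  exact ⟨z.1, (mem_rad_iff a).1 z.2, fun j hj => congrFun hz ⟨j, hj⟩⟩

variable {J : Finset (Fin m)} {ν : Fin r → F}

theorem mulVec_zero_of {w : Fin m → F} (hg : Good a J ν) (h : ∀ j, j ∉ J → (mG a ν *ᵥ w) j = 0) :
    mG a ν *ᵥ w = 0 := by
  refine dotProduct_eq_zero _ fun y => ?_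
  obtain ⟨z, hz, hzy⟩ := hg.2 y
  have h1 : (mG a ν *ᵥ w) ⬝ᵥ z = 0 := by
    rw [← dot_mG, hz, dotProduct_zero]
  have h2 : (mG a ν *ᵥ w) ⬝ᵥ (y - z) = 0 := by
    rw [dotProduct]
    refine Finset.sum_eq_zero fun j _ => ?_
    by_cases hj : j ∈ J
    · rw [Pi.sub_apply, hzy j hj, sub_self, mul_zero]
    · rw [h j hj, zero_mul]
  rw [dotProduct_sub, h1, sub_zero] at h2
  exact h2

theorem det_ne (hg : Good a J ν) : eval ν (gM a J).det ≠ 0 := by
  classical
  intro h0
  rw [RingHom.map_det] at h0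
  obtain ⟨c, hc, hc'⟩ := (exists_mulVec_eq_zero_iff).2 h0
  apply hc
  set y : Fin m → F := ∑ i, c i • Pi.single i.1 1 with hy
  have hG : mG a ν *ᵥ y = 0 := by
    refine mulVec_zero_of a hg fun j hj => ?_
    rw [hy, mulVec_sum]
    simp only [mulVec_smul, mulVec_single_one, Finset.sum_apply, Pi.smul_apply, smul_eq_mul]
    refine Eq.trans ?_ (congrFun hc' ⟨j, hj⟩)
    rw [mulVec, dotProduct]
    refine Finset.sum_congr rfl fun i _ => ?_
    rw [mul_comm, ← eval_gG]
    rfl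
  have hyJ : ∀ j ∈ J, y j = 0 := by
    intro j hj
    rw [hy, Finset.sum_apply]
    refine Finset.sum_eq_zero fun i _ => ?_
    rw [Pi.smul_apply, Pi.single_apply, if_neg, smul_zero]
    rintro rfl
    exact i.2 hj
  have hy0 := hg.1 y hG hyJ
  funext i
  have h1 := congrFun hy0 i.1
  rw [hy, Finset.sum_apply, Finset.sum_eq_single i] at h1
  · simpa using h1
  · intro b _ hb
    rw [Pi.smul_apply, Pi.single_apply, if_neg, smul_zero]
    intro h
    exact hb (Subtype.ext h.symm)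
  · intro h
    exact absurd (Finset.mem_univ _) h

theorem mG_mu (hg : Good a J ν) (s : Fin m) : mG a ν *ᵥ mu a J ν s = 0 :=
  mulVec_zero_of a hg fun j hj => mG_mulVec_mu a J ν s j hj

theorem mu_apply (s t : Fin m) (ht : t ∈ J) :
    mu a J ν s t = if t = s then eval ν (gM a J).det else 0 := by
  rw [mu, gu]
  simp only [Pi.sub_apply, Pi.smul_apply, smul_eq_mul, Finset.sum_apply]
  rw [Finset.sum_eq_zero, sub_zero, Pi.single_apply]
  · split_ifs <;> simp
  · intro i _
    rw [Pi.single_apply, if_neg, mul_zero]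
    rintro rfl
    exact i.2 ht

theorem span_mu (hg : Good a J ν) {x : Fin m → F} (hx : mG a ν *ᵥ x = 0) :
    eval ν (gM a J).det • x = ∑ s, x s • mu a J ν s := by
  rw [← sub_eq_zero]
  refine hg.1 _ ?_ fun j hj => ?_
  · rw [mulVec_sub, mulVec_smul, hx, smul_zero, mulVec_sum, zero_sub, neg_eq_zero]
    refine Finset.sum_eq_zero fun s _ => ?_
    rw [mulVec_smul, mG_mu a hg, smul_zero]
  · rw [Pi.sub_apply, Pi.smul_apply, Finset.sum_apply, smul_eq_mul]
    simp only [Pi.smul_apply, smul_eq_mul, mu_apply a _ j hj]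
    rw [Finset.sum_eq_single j]
    · rw [if_pos rfl]
      ring
    · intro b _ hb
      rw [if_neg hb.symm, mul_zero]
    · intro h
      exact absurd (Finset.mem_univ _) h

theorem eval_dot (x y : Fin m → MvPolynomial (Fin r) F)
    (N : Matrix (Fin m) (Fin m) (MvPolynomial (Fin r) F)) :
    eval ν (x ⬝ᵥ (N *ᵥ y)) =
      (fun i => eval ν (x i)) ⬝ᵥ (N.map (eval ν) *ᵥ fun i => eval ν (y i)) := by
  rw [dotProduct, map_sum, dotProduct]
  refine Finset.sum_congr rfl fun i _ => ?_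
  rw [map_mul, RingHom.map_mulVec]
  rfl

theorem eval_dirD_fB (hg : Good a J ν) (k : Fin r → F) (p : Fin m × Fin m) :
    eval ν (dirD k (fB a J p)) = mu a J ν p.1 ⬝ᵥ (mG a k *ᵥ mu a J ν p.2) := by
  have hN : ((gG a).map (dirD k)).map (eval ν) = mG a k := by
    ext i j
    simp only [map_apply, dirD_gG, eval_C]
  rw [fB, der_dot, map_add, map_add, eval_dot, eval_dot, eval_dot, hN, eval_gG]
  have h1 : mG a ν *ᵥ (fun i => eval ν (gu a J p.2 i)) = 0 := mG_mu a hg p.2
  have h2 : (fun i => eval ν (gu a J p.1 i)) ⬝ᵥ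
      (mG a ν *ᵥ fun i => eval ν (dirD k (gu a J p.2 i))) = 0 := by
    rw [dot_mG]
    have h3 : mG a ν *ᵥ (fun i => eval ν (gu a J p.1 i)) = 0 := mG_mu a hg p.1
    rw [h3, zero_dotProduct]
  rw [h1, h2, dotProduct_zero, zero_add, add_zero]
  rfl

theorem eval_dirD_fQ (hg : Good a J ν) (k : Fin r → F) (s : Fin m) :
    eval ν (dirD k (fQ a J s)) = mu a J ν s ⬝ᵥ (mA a k *ᵥ mu a J ν s) := by
  have hN : ((gA a).map (dirD k)).map (eval ν) = mA a k := by
    ext i j
    simp only [map_apply, dirD_gA, eval_C]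
  rw [fQ, der_dot, map_add, map_add, eval_dot, eval_dot, eval_dot, hN, eval_gA]
  set d : Fin m → F := fun i => eval ν (dirD k (gu a J s i))
  set u : Fin m → F := fun i => eval ν (gu a J s i) with hu
  have h1 : mG a ν *ᵥ u = 0 := mG_mu a hg s
  have h2 : u ⬝ᵥ (mA a ν *ᵥ d) = d ⬝ᵥ ((mA a ν)ᵀ *ᵥ u) := by
    rw [mulVec_transpose, dotProduct_comm d, dotProduct_mulVec]
  have h3 : d ⬝ᵥ (mA a ν *ᵥ u) + u ⬝ᵥ (mA a ν *ᵥ d) = 0 := by
    rw [h2, ← dotProduct_add, ← add_mulVec]
    change d ⬝ᵥ (mG a ν *ᵥ u) = 0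
    rw [h1, dotProduct_zero]
  calc d ⬝ᵥ (mA a ν *ᵥ u) + u ⬝ᵥ (mA a k *ᵥ u) + u ⬝ᵥ (mA a ν *ᵥ d)
      = (d ⬝ᵥ (mA a ν *ᵥ u) + u ⬝ᵥ (mA a ν *ᵥ d)) + u ⬝ᵥ (mA a k *ᵥ u) := by ring
    _ = u ⬝ᵥ (mA a k *ᵥ u) := by rw [h3, zero_add]

/-- A form which vanishes on the vectors `u s` with its polar form vanishes on their span. -/
theorem form_zero_of (q : QuadraticForm F (Fin m → F)) (u : Fin m → Fin m → F)
    (h1 : ∀ s, q (u s) = 0) (h2 : ∀ s t, QuadraticMap.polar q (u s) (u t) = 0) (c : Fin m → F) :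
    q (∑ s, c s • u s) = 0 := by
  classical
  have key : ∀ S : Finset (Fin m), q (∑ s ∈ S, c s • u s) = 0 ∧
      ∀ t, QuadraticMap.polar q (∑ s ∈ S, c s • u s) (u t) = 0 := by
    intro S
    induction S using Finset.induction_on with
    | empty => simp
    | insert b S hb ih =>
      rw [Finset.sum_insert hb]
      refine ⟨?_, fun t => ?_⟩
      · have h3 : QuadraticMap.polar q (c b • u b) (∑ s ∈ S, c s • u s) = 0 := by
          rw [QuadraticMap.polar_comm, QuadraticMap.polar_smul_right, ih.2 b, smul_zero]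
        rw [QuadraticMap.map_add q, QuadraticMap.map_smul, h1, smul_zero, ih.1, h3]
        simp
      · rw [QuadraticMap.polar_add_left, QuadraticMap.polar_smul_left, h2, ih.2 t, smul_zero,
          add_zero]
  exact (key Finset.univ).1

theorem zeros_fB (hg : Good a J ν) (p : Fin m × Fin m) : eval ν (fB a J p) = 0 := by
  rw [eval_fB, mG_mu a hg, dotProduct_zero]

theorem zeros_fQ (hg : Good a J ν) (h : ∀ x ∈ rad (ofMat a ν), ofMat a ν x = 0) (s : Fin m) :
    eval ν (fQ a J s) = 0 := by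
  rw [eval_fQ, ← ofMat_eq]
  exact h _ ((mem_rad_iff a).2 (mG_mu a hg s))

theorem jker_le_defB (hg : Good a J ν) : jker (fB a J) ν ≤ defB (ofMat a) ν := by
  intro k hk
  rw [mem_defB]
  intro x hx y hy
  rw [mem_rad_iff] at hx hy
  have hd := det_ne a hg
  have h1 := span_mu a hg hx
  have h2 := span_mu a hg hy
  have h3 : QuadraticMap.polar (ofMat a k) (eval ν (gM a J).det • x)
      (eval ν (gM a J).det • y) = 0 := by
    rw [h1, h2, polar_eq, mulVec_sum, sum_dotProduct]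
    refine Finset.sum_eq_zero fun s _ => ?_
    rw [dotProduct_sum]
    refine Finset.sum_eq_zero fun t _ => ?_
    rw [smul_dotProduct, mulVec_smul, dotProduct_smul]
    have h4 := hk (s, t)
    rw [eval_dirD_fB a hg] at h4
    rw [h4, smul_zero, smul_zero]
  rw [QuadraticMap.polar_smul_left, QuadraticMap.polar_smul_right, smul_eq_mul, smul_eq_mul,
    mul_eq_zero, mul_eq_zero] at h3
  tauto

theorem jker_le_defQ (hg : Good a J ν) :
    jker (Sum.elim (fB a J) (fQ a J)) ν ≤ defQ (ofMat a) ν := by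
  intro k hk
  rw [mem_defQ]
  intro x hx
  rw [mem_rad_iff] at hx
  have hd := det_ne a hg
  have h1 := span_mu a hg hx
  have h3 : ofMat a k (eval ν (gM a J).det • x) = 0 := by
    rw [h1]
    refine form_zero_of _ _ (fun s => ?_) (fun s t => ?_) _
    · have h4 := hk (Sum.inr s)
      rw [Sum.elim_inr, eval_dirD_fQ a hg] at h4
      rw [ofMat_eq, h4]
    · have h4 := hk (Sum.inl (s, t))
      rw [Sum.elim_inl, eval_dirD_fB a hg] at h4
      rw [polar_eq, h4]
  rw [QuadraticMap.map_smul, smul_eq_mul, mul_eq_zero, mul_eq_zero] at h3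
  tauto

end coord

end MPf80667.HB
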