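import Mathlib
import Pool.Agent.Lib.MP_f80667_ag.HB.LemC

/-!
The counting lemma for linear families of quadratic forms on an abstract space.
-/

open MvPolynomial Module Matrix

namespace MPf80667.HB

open MP_f80667_ag.Frm

/-- The constant of the counting lemma. -/
def cC (r n : ℕ) : ℕ := 2 ^ n * (2 ^ r * (2 * n + 3) ^ r)

theorem cC_mono {r m n : ℕ} (h : m ≤ n) : cC r m ≤ cC r n := by
  unfold cC
  have h1 : (2 : ℕ) ^ m ≤ 2 ^ n := Nat.pow_le_pow_right (by norm_num) h
  have h2 : (2 * m + 3) ^ r ≤ (2 * n + 3) ^ r := Nat.pow_le_pow_left (by omega) r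
  exact Nat.mul_le_mul h1 (Nat.mul_le_mul_left _ h2)

section coord

variable {F : Type*} [Field F] [Fintype F] {r m : ℕ} (a : Fin r → Matrix (Fin m) (Fin m) F)

/-- The general count: parameters with bounded kernel of the differential. -/
theorem count_good {ι : Finset (Fin m) → Type*} (f : ∀ J, ι J → MvPolynomial (Fin r) F)
    (hf : ∀ J i, (f J i).totalDegree ≤ 2 * m + 3) (d : ℕ) (S : Finset (Fin r → F))
    (hS : ∀ ν ∈ S, ∀ J, Good a J ν → (∀ i, eval ν (f J i) = 0) ∧ finrank F (jker (f J) ν) ≤ d) :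
    S.card ≤ cC r m * Fintype.card F ^ d := by
  classical
  have h1 : S ⊆ Finset.univ.biUnion fun J => S.filter fun ν => Good a J ν := by
    intro ν hν
    obtain ⟨J, hJ⟩ := exists_good a ν
    exact Finset.mem_biUnion.2 ⟨J, Finset.mem_univ _, Finset.mem_filter.2 ⟨hν, hJ⟩⟩
  refine (Finset.card_le_card h1).trans ?_
  refine (Finset.card_biUnion_le_card_mul _ _ (2 ^ r * (2 * m + 3) ^ r * Fintype.card F ^ d)
    fun J _ => ?_).trans ?_
  · refine count_rank (f J) _ (by omega) (hf J) d _ (fun ν hν => ?_) fun ν hν => ?_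
    · rw [Finset.mem_filter] at hν
      exact (hS ν hν.1 J hν.2).1
    · rw [Finset.mem_filter] at hν
      exact (hS ν hν.1 J hν.2).2
  · rw [Finset.card_univ, Fintype.card_finset, Fintype.card_fin, cC]
    exact le_of_eq (by ring)

theorem count_B (d : ℕ) (S : Finset (Fin r → F))
    (hS : ∀ ν ∈ S, finrank F (defB (ofMat a) ν) ≤ d) :
    S.card ≤ cC r m * Fintype.card F ^ d :=
  count_good a (fun J => fB a J) (fun J => deg_fB a J) d S fun ν hν J hJ =>
    ⟨zeros_fB a hJ, (Submodule.finrank_mono (jker_le_defB a hJ)).trans (hS ν hν)⟩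

theorem count_Q (d : ℕ) (S : Finset (Fin r → F))
    (hS : ∀ ν ∈ S, (∀ x ∈ rad (ofMat a ν), ofMat a ν x = 0) ∧
      finrank F (defQ (ofMat a) ν) ≤ d) :
    S.card ≤ cC r m * Fintype.card F ^ d := by
  refine count_good a (fun J => Sum.elim (fB a J) (fQ a J)) (fun J i => ?_) d S
    fun ν hν J hJ => ⟨fun i => ?_, (Submodule.finrank_mono (jker_le_defQ a hJ)).trans (hS ν hν).2⟩
  · rcases i with p | s
    · exact deg_fB a J p
    · exact deg_fQ a J s
  · rcases i with p | s
    · exact zeros_fB a hJ p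
    · exact zeros_fQ a hJ (hS ν hν).1 s

end coord

section abs

variable {F : Type*} [Field F] {V : Type*} [AddCommGroup V] [Module F V] [FiniteDimensional F V]
  {r : ℕ} (Q : (Fin r → F) →ₗ[F] QuadraticForm F V)

/-- Every linear family is, in coordinates, the family of a family of matrices. -/
theorem exists_mat : ∃ a : Fin r → Matrix (Fin (finrank F V)) (Fin (finrank F V)) F,
    ∀ (k : Fin r → F) (x : V), Q k x = ofMat a k ((finBasis F V).equivFun x) := by
  classical
  set bm := finBasis F V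
  refine ⟨fun k => LinearMap.BilinForm.toMatrix bm ((Q (Pi.single k 1)).toBilin bm), fun k x => ?_⟩
  have h1 : ∀ l : Fin r, Q (Pi.single l 1) x = bm.equivFun x ⬝ᵥ
      (LinearMap.BilinForm.toMatrix bm ((Q (Pi.single l 1)).toBilin bm) *ᵥ bm.equivFun x) := by
    intro l
    conv_lhs => rw [← QuadraticMap.toQuadraticMap_toBilin (Q (Pi.single l 1)) bm]
    rw [LinearMap.BilinMap.toQuadraticMap_apply]
    exact LinearMap.BilinForm.apply_eq_dotProduct_toMatrix_mulVec bm _ x x
  have h2 : k = ∑ l, k l • (Pi.single l 1 : Fin r → F) := by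
    funext j
    simp [Finset.sum_apply, Pi.single_apply]
  rw [ofMat_apply]
  conv_lhs => rw [h2, map_sum]
  rw [_root_.sum_apply]
  simp only [map_smul, _root_.smul_apply, h1]
  rw [sum_mulVec, dotProduct_sum]
  refine Finset.sum_congr rfl fun l _ => ?_
  rw [smul_mulVec, dotProduct_smul]

variable {Q} {a : Fin r → Matrix (Fin (finrank F V)) (Fin (finrank F V)) F}

theorem rad_iff (ha : ∀ (k : Fin r → F) (x : V), Q k x = ofMat a k ((finBasis F V).equivFun x))
    (ν : Fin r → F) (x : V) :
    x ∈ rad (Q ν) ↔ (finBasis F V).equivFun x ∈ rad (ofMat a ν) := by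
  rw [mem_rad, mem_rad]
  constructor
  · intro h y
    have h1 := h ((finBasis F V).equivFun.symm y)
    simp only [QuadraticMap.polar, ha, map_add, LinearEquiv.apply_symm_apply] at h1 ⊢
    exact h1
  · intro h y
    have h1 := h ((finBasis F V).equivFun y)
    simp only [QuadraticMap.polar, ha, map_add] at h1 ⊢
    exact h1

theorem polar_eq' (ha : ∀ (k : Fin r → F) (x : V), Q k x = ofMat a k ((finBasis F V).equivFun x))
    (k : Fin r → F) (x y : V) : QuadraticMap.polar (Q k) x y =
      QuadraticMap.polar (ofMat a k) ((finBasis F V).equivFun x) ((finBasis F V).equivFun y) := by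
  simp only [QuadraticMap.polar, ha, map_add]

theorem defQ_eq (ha : ∀ (k : Fin r → F) (x : V), Q k x = ofMat a k ((finBasis F V).equivFun x))
    (ν : Fin r → F) : defQ Q ν = defQ (ofMat a) ν := by
  ext k
  rw [mem_defQ, mem_defQ]
  constructor
  · intro h y hy
    have h1 := h ((finBasis F V).equivFun.symm y)
    rw [rad_iff ha, LinearEquiv.apply_symm_apply, ha, LinearEquiv.apply_symm_apply] at h1
    exact h1 hy
  · intro h x hx
    rw [ha]
    exact h _ ((rad_iff ha ν x).1 hx)

theorem defB_eq (ha : ∀ (k : Fin r → F) (x : V), Q k x = ofMat a k ((finBasis F V).equivFun x))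
    (ν : Fin r → F) : defB Q ν = defB (ofMat a) ν := by
  ext k
  rw [mem_defB, mem_defB]
  constructor
  · intro h x hx y hy
    have h1 := h ((finBasis F V).equivFun.symm x)
      ((rad_iff ha ν _).2 (by rwa [LinearEquiv.apply_symm_apply]))
      ((finBasis F V).equivFun.symm y)
      ((rad_iff ha ν _).2 (by rwa [LinearEquiv.apply_symm_apply]))
    rwa [polar_eq' ha, LinearEquiv.apply_symm_apply, LinearEquiv.apply_symm_apply] at h1
  · intro h x hx y hy
    rw [polar_eq' ha]
    exact h _ ((rad_iff ha ν x).1 hx) _ ((rad_iff ha ν y).1 hy)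

variable (Q)

/-- **The counting lemma, quadratic forms.** -/
theorem count_Q' [Fintype F] (d : ℕ) (S : Finset (Fin r → F))
    (hS : ∀ ν ∈ S, (∀ x ∈ rad (Q ν), Q ν x = 0) ∧ finrank F (defQ Q ν) ≤ d) :
    S.card ≤ cC r (finrank F V) * Fintype.card F ^ d := by
  obtain ⟨a, ha⟩ := exists_mat Q
  refine count_Q a d S fun ν hν => ⟨fun y hy => ?_, ?_⟩
  · have h1 := (hS ν hν).1 ((finBasis F V).equivFun.symm y)
      ((rad_iff ha ν _).2 (by rwa [LinearEquiv.apply_symm_apply]))
    rwa [ha, LinearEquiv.apply_symm_apply] at h1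
  · rw [← defQ_eq ha]
    exact (hS ν hν).2

/-- **The counting lemma, polar forms.** -/
theorem count_B' [Fintype F] (d : ℕ) (S : Finset (Fin r → F))
    (hS : ∀ ν ∈ S, finrank F (defB Q ν) ≤ d) :
    S.card ≤ cC r (finrank F V) * Fintype.card F ^ d := by
  obtain ⟨a, ha⟩ := exists_mat Q
  refine count_B a d S fun ν hν => ?_
  rw [← defB_eq ha]
  exact hS ν hν

end abs

/-- The counting lemma, quadratic forms, as used in the final count. -/
theorem lemC_Q (r n : ℕ) : ∃ C : ℕ, ∀ (F : Type) [Field F] [Fintype F] (V : Type)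
    [AddCommGroup V] [Module F V] [FiniteDimensional F V], finrank F V ≤ n →
    ∀ (Q : (Fin r → F) →ₗ[F] QuadraticForm F V) (d : ℕ),
      Nat.card {ν : Fin r → F // (∀ x ∈ rad (Q ν), Q ν x = 0) ∧ finrank F (defQ Q ν) = d} ≤
        C * Fintype.card F ^ d := by
  classical
  refine ⟨cC r n, fun F _ _ V _ _ _ hV Q d => ?_⟩
  rw [Nat.card_eq_fintype_card, Fintype.card_subtype]
  refine (count_Q' Q d _ fun ν hν => ?_).trans (Nat.mul_le_mul_right _ (cC_mono hV))
  rw [Finset.mem_filter] at hν
  exact ⟨hν.2.1, hν.2.2.le⟩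

/-- The counting lemma, polar forms, as used in the final count. -/
theorem lemC_B (r n : ℕ) : ∃ C : ℕ, ∀ (F : Type) [Field F] [Fintype F] (V : Type)
    [AddCommGroup V] [Module F V] [FiniteDimensional F V], finrank F V ≤ n →
    ∀ (Q : (Fin r → F) →ₗ[F] QuadraticForm F V) (d : ℕ),
      Nat.card {μ : Fin r → F // finrank F (defB Q μ) = d} ≤ C * Fintype.card F ^ d := by
  classical
  refine ⟨cC r n, fun F _ _ V _ _ _ hV Q d => ?_⟩
  rw [Nat.card_eq_fintype_card, Fintype.card_subtype]
  refine (count_B' Q d _ fun ν hν => ?_).trans (Nat.mul_le_mul_right _ (cC_mono hV))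
  rw [Finset.mem_filter] at hν
  exact hν.2.le

end MPf80667.HB
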