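import Mathlib

/-!
# MP_f80667_ag: HB/Cpt.lean

Compactness of `R^n` for a ring `R` which is complete for a finitely generated ideal `I` of finite
index, in the form used for quadratic forms: if for every `c` there is a primitive vector at which
the forms are in `I ^ c` then there is a primitive common zero.
-/

namespace MPf80667.B1

open Matrix

/-- The value of the quadratic form with matrix `A` at `x`. -/
def qv {R : Type*} [CommRing R] {n : ℕ} (A : Matrix (Fin n) (Fin n) R) (x : Fin n → R) : R :=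
  x ⬝ᵥ (A *ᵥ x)

section Congr

variable {R : Type*} [CommRing R] {n : ℕ}

/-- The value of a quadratic form modulo an ideal depends only on the vector modulo the ideal. -/
theorem qv_sub_mem (A : Matrix (Fin n) (Fin n) R) (J : Ideal R) {x y : Fin n → R}
    (h : ∀ i, x i - y i ∈ J) : qv A x - qv A y ∈ J := by
  have e : qv A x - qv A y = (x - y) ⬝ᵥ (A *ᵥ x) + y ⬝ᵥ (A *ᵥ (x - y)) := by
    unfold qv
    rw [sub_dotProduct, mulVec_sub, dotProduct_sub]
    ring
  rw [e]
  refine J.add_mem ?_ ?_
  · refine J.sum_mem fun i _ => J.mul_mem_right _ ?_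
    simpa using h i
  · refine J.sum_mem fun i _ => J.mul_mem_left _ ?_
    rw [mulVec, dotProduct]
    refine J.sum_mem fun j _ => J.mul_mem_left _ ?_
    simpa using h j

end Congr

section Compact

variable {R : Type*} [CommRing R] {n : ℕ} (I : Ideal R)

/-- König's lemma for the finite quotients of `R^n`. -/
theorem cpt_aux (hI : I.FG) [IsPrecomplete I R] [Finite (R ⧸ I)]
    (P : ℕ → (Fin n → R) → Prop)
    (anti : ∀ c c' x, c' ≤ c → P c x → P c' x) (h : ∀ c, ∃ x, P c x) :
    ∃ y : Fin n → R, ∀ c, ∃ x, P c x ∧ ∀ i, x i - y i ∈ I ^ c := by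
  classical
  -- G m y : for every c there is x with P c x and x = y mod I^m
  let G : ℕ → (Fin n → R) → Prop := fun m y => ∀ c, ∃ x, P c x ∧ ∀ i, x i - y i ∈ I ^ m
  have step : ∀ m y, G m y → ∃ y', G (m + 1) y' ∧ ∀ i, y' i - y i ∈ I ^ m := by
    intro m y hy
    by_contra hcon
    push Not at hcon
    have : Finite (R ⧸ I ^ (m + 1)) := Ideal.finite_quotient_pow hI (m + 1)
    -- representatives
    let rep : (Fin n → R ⧸ I ^ (m + 1)) → (Fin n → R) := fun u i =>
      Quotient.out (u i)
    have hrep : ∀ (x : Fin n → R) i,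
        x i - rep (fun i => Ideal.Quotient.mk (I ^ (m + 1)) (x i)) i ∈ I ^ (m + 1) := by
      intro x i
      rw [← Ideal.Quotient.mk_eq_mk_iff_sub_mem]
      exact (Quotient.out_eq (Ideal.Quotient.mk (I ^ (m + 1)) (x i))).symm
    have := Fintype.ofFinite (Fin n → R ⧸ I ^ (m + 1))
    have hbad : ∀ u : Fin n → R ⧸ I ^ (m + 1), (∀ i, rep u i - y i ∈ I ^ m) →
        ∃ c, ∀ x, P c x → ¬ ∀ i, x i - rep u i ∈ I ^ (m + 1) := by
      intro u hu
      by_contra hc
      push Not at hc
      obtain ⟨i, hi⟩ := hcon (rep u) (fun c => by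
        obtain ⟨x, hx, hx'⟩ := hc c
        exact ⟨x, hx, hx'⟩)
      exact hi (hu i)
    choose! cf hcf using hbad
    let C := Finset.univ.sup cf
    obtain ⟨x, hx, hxy⟩ := hy C
    set u : Fin n → R ⧸ I ^ (m + 1) := fun i => Ideal.Quotient.mk (I ^ (m + 1)) (x i) with hu
    have h1 : ∀ i, x i - rep u i ∈ I ^ (m + 1) := hrep x
    have h2 : ∀ i, rep u i - y i ∈ I ^ m := by
      intro i
      have e : rep u i - y i = (x i - y i) - (x i - rep u i) := by ring
      rw [e]
      exact Ideal.sub_mem _ (hxy i) (Ideal.pow_le_pow_right (Nat.le_succ m) (h1 i))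
    exact hcf u h2 x (anti C (cf u) x (Finset.le_sup (Finset.mem_univ u)) hx) h1
  choose! nx hnx using step
  have h0 : G 0 0 := by
    intro c
    obtain ⟨x, hx⟩ := h c
    exact ⟨x, hx, fun i => by simp⟩
  let ys : ℕ → (Fin n → R) := fun m => Nat.rec 0 (fun m y => nx m y) m
  have hG : ∀ m, G m (ys m) := by
    intro m
    induction m with
    | zero => exact h0
    | succ m ih => exact (hnx m (ys m) ih).1
  have hd : ∀ m i, ys (m + 1) i - ys m i ∈ I ^ m := fun m => (hnx m (ys m) (hG m)).2
  have hd' : ∀ m k i, ys (m + k) i - ys m i ∈ I ^ m := by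
    intro m k i
    induction k with
    | zero => simp
    | succ k ih =>
      have e : ys (m + (k + 1)) i - ys m i
          = (ys (m + k + 1) i - ys (m + k) i) + (ys (m + k) i - ys m i) := by
        rw [← add_assoc]; ring
      rw [e]
      exact Ideal.add_mem _ (Ideal.pow_le_pow_right (Nat.le_add_right m k) (hd (m + k) i)) ih
  have hlim : ∀ i, ∃ L : R, ∀ m, ys m i - L ∈ I ^ m := by
    intro i
    obtain ⟨L, hL⟩ := IsPrecomplete.prec' (I := I) (M := R) (fun m => ys m i) (by
      intro a b hab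
      rw [SModEq.sub_mem]
      obtain ⟨k, rfl⟩ := Nat.exists_eq_add_of_le hab
      have := hd' a k i
      have h3 := neg_mem this
      rw [neg_sub] at h3
      simpa using h3)
    refine ⟨L, fun m => ?_⟩
    have := hL m
    rw [SModEq.sub_mem] at this
    simpa using this
  choose L hL using hlim
  refine ⟨L, fun c => ?_⟩
  obtain ⟨x, hx, hxy⟩ := hG c c
  refine ⟨x, hx, fun i => ?_⟩
  have e : x i - L i = (x i - ys c i) + (ys c i - L i) := by ring
  rw [e]
  exact Ideal.add_mem _ (hxy i) (hL i c)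

/-- Compactness: approximate primitive zeros of every precision give a primitive zero. -/
theorem cpt [IsLocalRing R] (hI : (IsLocalRing.maximalIdeal R).FG)
    [IsAdicComplete (IsLocalRing.maximalIdeal R) R] [Finite (IsLocalRing.ResidueField R)]
    {ι : Type*} (A : ι → Matrix (Fin n) (Fin n) R)
    (h : ∀ c : ℕ, ∃ x : Fin n → R, (∃ i, IsUnit (x i)) ∧
      ∀ k, qv (A k) x ∈ (IsLocalRing.maximalIdeal R) ^ c) :
    ∃ x : Fin n → R, (∃ i, IsUnit (x i)) ∧ ∀ k, qv (A k) x = 0 := by
  have : Finite (R ⧸ IsLocalRing.maximalIdeal R) :=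
    inferInstanceAs (Finite (IsLocalRing.ResidueField R))
  obtain ⟨y, hy⟩ := cpt_aux (IsLocalRing.maximalIdeal R) hI
    (fun c x => (∃ i, IsUnit (x i)) ∧ ∀ k, qv (A k) x ∈ (IsLocalRing.maximalIdeal R) ^ c)
    (fun c c' x hc hx => ⟨hx.1, fun k => Ideal.pow_le_pow_right hc (hx.2 k)⟩) h
  refine ⟨y, ?_, fun k => ?_⟩
  · obtain ⟨x, ⟨⟨i, hi⟩, -⟩, hxy⟩ := hy 1
    refine ⟨i, ?_⟩
    by_contra hne
    have h1 : y i ∈ IsLocalRing.maximalIdeal R := hne
    have h2 := hxy i
    rw [pow_one] at h2
    have h3 : x i ∈ IsLocalRing.maximalIdeal R := by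
      have e : x i = (x i - y i) + y i := by ring
      rw [e]
      exact Ideal.add_mem _ h2 h1
    exact h3 hi
  · have h0 : ∀ c, qv (A k) y ∈ (IsLocalRing.maximalIdeal R) ^ c := by
      intro c
      obtain ⟨x, ⟨-, hx⟩, hxy⟩ := hy c
      have h1 := qv_sub_mem (A k) _ hxy
      have e : qv (A k) y = qv (A k) x - (qv (A k) x - qv (A k) y) := by ring
      rw [e]
      exact Ideal.sub_mem _ (hx k) h1
    refine IsHausdorff.haus (I := IsLocalRing.maximalIdeal R) inferInstance _ fun c => ?_
    rw [SModEq.sub_mem]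
    simpa using h0 c

end Compact

end MPf80667.B1
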