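import Mathlib
import Pool.Agent.Lib.MP_f80667_ag.HB.Cpt

/-!
# MP_f80667_ag: HB/Lat.lean

Integral models of a system of quadratic forms over a discrete valuation ring: a model is a
triple `(T, R, B)` with `Q (T y) = R Q' (y)`, where `Q'` is the system of forms with matrices
`B`. The lemma `step` produces a better model when the reduction of `Q'` violates the condition
`2 dim D + 1 + dim U ≤ n`.
-/

namespace MPf80667.B1

open Matrix

section Basic

variable {R : Type*} [CommRing R] {n n' : ℕ}

theorem qv_mulVec (A : Matrix (Fin n) (Fin n) R) (E : Matrix (Fin n) (Fin n') R)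
    (x : Fin n' → R) : qv A (E *ᵥ x) = qv (Eᵀ * A * E) x := by
  unfold qv
  rw [← mulVec_mulVec, ← mulVec_mulVec, dotProduct_mulVec x Eᵀ, vecMul_transpose]

theorem qv_sum {ι : Type*} [Fintype ι] (A : ι → Matrix (Fin n) (Fin n) R) (c : ι → R)
    (x : Fin n → R) : qv (∑ k, c k • A k) x = ∑ k, c k * qv (A k) x := by
  unfold qv
  rw [sum_mulVec, dotProduct_sum]
  refine Finset.sum_congr rfl fun k _ => ?_
  rw [smul_mulVec, dotProduct_smul, smul_eq_mul]

theorem qv_smul_vec (A : Matrix (Fin n) (Fin n) R) (c : R) (x : Fin n → R) :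
    qv A (c • x) = c ^ 2 * qv A x := by
  unfold qv
  rw [mulVec_smul, dotProduct_smul, smul_dotProduct, smul_eq_mul, smul_eq_mul]
  ring

theorem qv_map {S : Type*} [CommRing S] (f : R →+* S) (A : Matrix (Fin n) (Fin n) R)
    (x : Fin n → R) : f (qv A x) = qv (A.map f) (fun i => f (x i)) := by
  unfold qv
  simp only [dotProduct, mulVec, map_sum, map_mul, Matrix.map_apply]

theorem qv_eq_sum (A : Matrix (Fin n) (Fin n) R) (x : Fin n → R) :
    qv A x = ∑ a : Fin n × Fin n, x a.1 * (A a.1 a.2 * x a.2) := by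
  unfold qv
  rw [Fintype.sum_prod_type]
  simp only [dotProduct, mulVec, Finset.mul_sum]

theorem qv_sub (A B : Matrix (Fin n) (Fin n) R) (x : Fin n → R) :
    qv (A - B) x = qv A x - qv B x := by
  unfold qv
  rw [sub_mulVec, dotProduct_sub]

/-- An alternating matrix gives the form zero. -/
theorem qv_alt (A : Matrix (Fin n) (Fin n) R) (h0 : ∀ i, A i i = 0)
    (h1 : ∀ i j, A i j + A j i = 0) (x : Fin n → R) : qv A x = 0 := by
  rw [qv_eq_sum]
  refine Finset.sum_involution (fun a _ => (a.2, a.1)) ?_ ?_ ?_ ?_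
  · intro a _
    have h2 := h1 a.1 a.2
    have e : x a.1 * (A a.1 a.2 * x a.2) + x a.2 * (A a.2 a.1 * x a.1)
        = x a.1 * x a.2 * (A a.1 a.2 + A a.2 a.1) := by ring
    rw [e, h2, mul_zero]
  · intro a _ ha hcon
    have h3 : a.2 = a.1 := congrArg Prod.fst hcon
    rw [h3, h0] at ha
    simp at ha
  · intro a _
    exact Finset.mem_univ _
  · intro a _
    rfl

/-- A quadratic form all of whose values are divisible by `p` is `p` times a form. -/
theorem exists_div (p : R) (M : Matrix (Fin n) (Fin n) R) (h : ∀ z, p ∣ qv M z) :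
    ∃ M' : Matrix (Fin n) (Fin n) R, ∀ z, qv M z = p * qv M' z := by
  have hd : ∀ i, p ∣ M i i := by
    intro i
    have h1 := h (Pi.single i 1)
    have e : qv M (Pi.single i 1) = M i i := by
      unfold qv
      simp
    rwa [e] at h1
  have ho : ∀ i j, p ∣ M i j + M j i := by
    intro i j
    have h1 := h (Pi.single i 1 + Pi.single j 1)
    have e : qv M (Pi.single i 1 + Pi.single j 1) = M i i + M j j + (M i j + M j i) := by
      unfold qv
      rw [mulVec_add, dotProduct_add, add_dotProduct, add_dotProduct]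
      simp
      ring
    rw [e] at h1
    exact (dvd_add_right (dvd_add (hd i) (hd j))).mp h1
  choose c hc using hd
  choose d hdd using ho
  set M' : Matrix (Fin n) (Fin n) R :=
    Matrix.of (fun i j => if i = j then c i else if i < j then d i j else 0) with hM'
  have hii : ∀ i, M' i i = c i := fun i => by simp [hM']
  have hlt : ∀ i j, i < j → M' i j = d i j := fun i j hij => by
    simp [hM', hij.ne, hij]
  have hgt : ∀ i j, j < i → M' i j = 0 := fun i j hij => by
    simp [hM', hij.ne', hij.not_gt]
  refine ⟨M', fun z => ?_⟩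
  have e1 : p * qv M' z = qv (p • M') z := by
    unfold qv
    rw [smul_mulVec, dotProduct_smul, smul_eq_mul]
  rw [e1, ← sub_eq_zero, ← qv_sub]
  refine qv_alt _ (fun i => ?_) (fun i j => ?_) z
  · rw [Matrix.sub_apply, Matrix.smul_apply, hii, smul_eq_mul, hc i, sub_self]
  · rw [Matrix.sub_apply, Matrix.smul_apply, Matrix.sub_apply, Matrix.smul_apply, smul_eq_mul,
      smul_eq_mul]
    rcases lt_trichotomy i j with hij | hij | hij
    · rw [hlt i j hij, hgt j i hij, ← hdd i j]
      ring
    · subst hij
      rw [hii, hc i]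
      ring
    · rw [hlt j i hij, hgt i j hij, ← hdd j i]
      ring

end Basic

section Adapted

/-- A basis of `F^n` adapted to a subspace, as an invertible matrix. -/
theorem exists_adapted {F : Type*} [Field F] {n : ℕ} (U : Submodule F (Fin n → F)) :
    ∃ (G : Matrix (Fin n) (Fin n) F) (S : Finset (Fin n)), G.det ≠ 0 ∧
      S.card + Module.finrank F U = n ∧ ∀ j, j ∉ S → (fun i => G i j) ∈ U := by
  classical
  obtain ⟨m, bM, bN, f, a, snf⟩ := Submodule.smithNormalForm (Pi.basisFun F (Fin n)) U
  refine ⟨(Pi.basisFun F (Fin n)).toMatrix bM, (Finset.univ.map f)ᶜ, ?_, ?_, ?_⟩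
  · have h1 : (Pi.basisFun F (Fin n)).toMatrix bM * bM.toMatrix (Pi.basisFun F (Fin n)) = 1 :=
      Module.Basis.toMatrix_mul_toMatrix_flip _ _
    have h2 := congrArg det h1
    rw [det_mul, det_one] at h2
    exact left_ne_zero_of_mul_eq_one h2
  · rw [Finset.card_compl, Finset.card_map, Module.finrank_eq_card_basis bN, Fintype.card_fin,
      Finset.card_univ, Fintype.card_fin]
    have : m ≤ n := by
      simpa using Fintype.card_le_of_embedding f
    omega
  · intro j hj
    simp only [Finset.mem_compl, Finset.mem_map, Finset.mem_univ, true_and, not_not] at hj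
    obtain ⟨i, rfl⟩ := hj
    have e : (fun i' => (Pi.basisFun F (Fin n)).toMatrix bM i' (f i)) = bM (f i) := by
      ext i'
      simp [Module.Basis.toMatrix_apply]
    rw [e]
    have ha : a i ≠ 0 := by
      intro h0
      have h1 := snf i
      rw [h0, zero_smul] at h1
      exact bN.ne_zero i (Subtype.ext h1)
    have h2 : bM (f i) = (a i)⁻¹ • ((bN i : U) : Fin n → F) := by
      rw [snf i, smul_smul, inv_mul_cancel₀ ha, one_smul]
    rw [h2]
    exact U.smul_mem _ (bN i).2

end Adapted

section Step

variable {O : Type*} [CommRing O] [IsDomain O] [IsDiscreteValuationRing O] {p : O}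
  {n r : ℕ}

/-- A model of the system of forms `A`. -/
structure St (p : O) (A : Fin r → Matrix (Fin n) (Fin n) O) (T : Matrix (Fin n) (Fin n) O)
    (R : Matrix (Fin r) (Fin r) O) (B : Fin r → Matrix (Fin n) (Fin n) O) (a b : ℕ) : Prop where
  hT : Associated T.det (p ^ a)
  hR : Associated R.det (p ^ b)
  hq : ∀ y k, qv (A k) (T *ᵥ y) = ∑ l, R k l * qv (B l) y

omit [IsDomain O] [IsDiscreteValuationRing O] in
/-- The trivial model. -/
theorem st_zero (A : Fin r → Matrix (Fin n) (Fin n) O) : St p A 1 1 A 0 0 where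
  hT := by simp
  hR := by simp
  hq := by
    intro y k
    rw [one_mulVec]
    simp [Matrix.one_apply]

variable {F : Type*} [Field F] (red : O →+* F)

theorem isUnit_of_red (hp : Irreducible p) (hker : ∀ x, p ∣ x → red x = 0) {x : O}
    (hx : red x ≠ 0) : IsUnit x := by
  have hx0 : x ≠ 0 := by
    rintro rfl
    exact hx (map_zero red)
  obtain ⟨m, u, hu⟩ := IsDiscreteValuationRing.eq_unit_mul_pow_irreducible hx0 hp
  rcases Nat.eq_zero_or_pos m with hm | hm
  · rw [hu, hm, pow_zero, mul_one]
    exact u.isUnit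
  · exfalso
    refine hx (hker x ?_)
    rw [hu]
    exact Dvd.dvd.mul_left (dvd_pow_self p hm.ne') _

omit [IsDomain O] [IsDiscreteValuationRing O] in
theorem exists_lift_matrix (hsurj : Function.Surjective red) {m m' : ℕ}
    (G : Matrix (Fin m) (Fin m') F) : ∃ G' : Matrix (Fin m) (Fin m') O, G'.map red = G := by
  choose f hf using hsurj
  exact ⟨G.map f, by ext i j; simp [hf]⟩

/-- The condition on the reduction of a model. -/
def Star (A : Fin r → Matrix (Fin n) (Fin n) F) : Prop :=
  ∀ (D : Submodule F (Fin r → F)) (U : Submodule F (Fin n → F)), D ≠ ⊥ →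
    (∀ μ ∈ D, ∀ x ∈ U, ∑ k, μ k * qv (A k) x = 0) →
    2 * Module.finrank F D + 1 + Module.finrank F U ≤ n

/-- One step: a model which violates the condition is replaced by a better one. -/
theorem step (hp : Irreducible p) (hsurj : Function.Surjective red)
    (hker : ∀ x, red x = 0 ↔ p ∣ x) {A : Fin r → Matrix (Fin n) (Fin n) O}
    {T : Matrix (Fin n) (Fin n) O} {R : Matrix (Fin r) (Fin r) O}
    {B : Fin r → Matrix (Fin n) (Fin n) O} {a b : ℕ} (hst : St p A T R B a b)
    (hv : ¬ Star (fun k => (B k).map red)) :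
    ∃ (T' : Matrix (Fin n) (Fin n) O) (R' : Matrix (Fin r) (Fin r) O)
      (B' : Fin r → Matrix (Fin n) (Fin n) O) (s d : ℕ),
      St p A T' R' B' (a + s) (b + d) ∧ 1 ≤ d ∧ s ≤ 2 * d := by
  classical
  unfold Star at hv
  push Not at hv
  obtain ⟨D, U, hD, hDU, hdim⟩ := hv
  obtain ⟨G0, S, hG0, hS, hGU⟩ := exists_adapted U
  obtain ⟨H0, K, hH0, hK, hHD⟩ := exists_adapted D
  obtain ⟨G, hG⟩ := exists_lift_matrix red hsurj G0
  obtain ⟨H, hH⟩ := exists_lift_matrix red hsurj H0ᵀ
  have hp0 : red p = 0 := (hker p).mpr dvd_rfl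
  have hGu : IsUnit G.det := by
    refine isUnit_of_red red hp (fun x hx => (hker x).mpr hx) ?_
    rw [RingHom.map_det, RingHom.mapMatrix_apply, hG]
    exact hG0
  have hHu : IsUnit H.det := by
    refine isUnit_of_red red hp (fun x hx => (hker x).mpr hx) ?_
    rw [RingHom.map_det, RingHom.mapMatrix_apply, hH, det_transpose]
    exact hH0
  have hdpos : 1 ≤ Module.finrank F D := by
    rw [Nat.one_le_iff_ne_zero]
    intro h0
    exact hD (Submodule.finrank_eq_zero.mp h0)
  -- the change of variables
  set T1 : Matrix (Fin n) (Fin n) O := G * diagonal (fun j => if j ∈ S then p else 1) with hT1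
  have hredT : ∀ z : Fin n → O, (fun i => red ((T1 *ᵥ z) i)) ∈ U := by
    intro z
    have e : (fun i => red ((T1 *ᵥ z) i)) =
        ∑ j, (if j ∈ S then 0 else red (z j)) • (fun i => G0 i j) := by
      ext i
      rw [Finset.sum_apply]
      simp only [mulVec, dotProduct, map_sum, map_mul]
      refine Finset.sum_congr rfl fun j _ => ?_
      rw [hT1, mul_diagonal, map_mul]
      have hGij : red (G i j) = G0 i j := by
        rw [← hG]
        rfl
      rw [hGij]
      split_ifs with hj
      · rw [hp0]
        simp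
      · simp [mul_comm]
    rw [e]
    refine U.sum_mem fun j _ => ?_
    split_ifs with hj
    · rw [zero_smul]
      exact U.zero_mem
    · exact U.smul_mem _ (hGU j hj)
  -- the new forms before division
  let M : Fin r → Matrix (Fin n) (Fin n) O := fun i => ∑ k, H i k • (T1ᵀ * B k * T1)
  have hM : ∀ i z, qv (M i) z = ∑ k, H i k * qv (B k) (T1 *ᵥ z) := by
    intro i z
    simp only [M]
    rw [qv_sum]
    refine Finset.sum_congr rfl fun k _ => ?_
    rw [qv_mulVec]
  have hMdiv : ∀ i, i ∉ K → ∀ z, p ∣ qv (M i) z := by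
    intro i hi z
    rw [← hker, hM, map_sum]
    have h1 := hDU _ (hHD i hi) _ (hredT z)
    rw [← h1]
    refine Finset.sum_congr rfl fun k _ => ?_
    rw [map_mul, qv_map]
    congr 1
    have : (H.map red) i k = H0ᵀ i k := by rw [hH]
    simpa using this
  have hex : ∀ i, ∃ M' : Matrix (Fin n) (Fin n) O,
      ∀ z, qv (M i) z = (if i ∈ K then 1 else p) * qv M' z := by
    intro i
    by_cases hi : i ∈ K
    · exact ⟨M i, fun z => by rw [if_pos hi, one_mul]⟩
    · obtain ⟨M', hM'⟩ := exists_div p (M i) (hMdiv i hi)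
      exact ⟨M', fun z => by rw [if_neg hi]; exact hM' z⟩
  choose B' hB' using hex
  refine ⟨T * T1, R * H⁻¹ * diagonal (fun i => if i ∈ K then 1 else p), B', S.card,
    Module.finrank F D, ⟨?_, ?_, ?_⟩, hdpos, by omega⟩
  · rw [det_mul, pow_add]
    refine hst.hT.mul_mul ?_
    rw [hT1, det_mul, det_diagonal]
    have e : ∏ j, (if j ∈ S then p else 1) = p ^ S.card := by
      rw [Finset.prod_ite_mem, Finset.univ_inter, Finset.prod_const]
    rw [e]
    exact associated_unit_mul_left _ _ hGu
  · rw [det_mul, det_mul, pow_add]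
    refine Associated.mul_mul ?_ ?_
    · have h1 : IsUnit (H⁻¹).det := by
        rw [isUnit_nonsing_inv_det_iff]
        exact hHu
      exact (associated_mul_unit_left _ _ h1).trans hst.hR
    · rw [det_diagonal]
      have e : ∏ i, (if i ∈ K then 1 else p) = p ^ (Kᶜ).card := by
        have : ∀ i, (if i ∈ K then (1 : O) else p) = if i ∈ Kᶜ then p else 1 := by
          intro i
          by_cases hi : i ∈ K <;> simp [hi]
        simp only [this]
        rw [Finset.prod_ite_mem, Finset.univ_inter, Finset.prod_const]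
      rw [e, Finset.card_compl, Fintype.card_fin]
      have : r - K.card = Module.finrank F D := by omega
      rw [this]
      exact Associated.refl _
  · intro y k
    rw [← mulVec_mulVec, hst.hq]
    -- vector form
    have hvec : (fun l => qv (B l) (T1 *ᵥ y)) =
        H⁻¹ *ᵥ (diagonal (fun i => if i ∈ K then 1 else p) *ᵥ (fun i => qv (B' i) y)) := by
      have h1 : H *ᵥ (fun l => qv (B l) (T1 *ᵥ y)) =
          diagonal (fun i => if i ∈ K then 1 else p) *ᵥ (fun i => qv (B' i) y) := by
        ext i
        rw [mulVec_diagonal, ← hB', hM]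
        rfl
      rw [← h1, mulVec_mulVec, nonsing_inv_mul _ hHu, one_mulVec]
    have h2 : ∑ l, R k l * qv (B l) (T1 *ᵥ y) = (R *ᵥ (fun l => qv (B l) (T1 *ᵥ y))) k := rfl
    rw [h2, hvec, mulVec_mulVec, mulVec_mulVec]
    rfl

/-- Iteration: if every model violates the condition then there are models of arbitrarily
large quality. -/
theorem iter (hp : Irreducible p) (hsurj : Function.Surjective red)
    (hker : ∀ x, red x = 0 ↔ p ∣ x) (hn : 4 * r < n) (A : Fin r → Matrix (Fin n) (Fin n) O)
    (hall : ∀ T R B a b, St p A T R B a b → ¬ Star (fun k => (B k).map red)) (j : ℕ) :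
    ∃ T R B a b, St p A T R B a b ∧ 2 * r * a + j ≤ n * b := by
  induction j with
  | zero => exact ⟨1, 1, A, 0, 0, st_zero A, by simp⟩
  | succ j ih =>
    obtain ⟨T, R, B, a, b, hst, hab⟩ := ih
    obtain ⟨T', R', B', s, d, hst', hd, hs⟩ := step red hp hsurj hker hst (hall T R B a b hst)
    refine ⟨T', R', B', a + s, b + d, hst', ?_⟩
    have h1 : 2 * r * s ≤ 4 * r * d := by
      calc 2 * r * s ≤ 2 * r * (2 * d) := Nat.mul_le_mul_left _ hs
        _ = 4 * r * d := by ring
    have h2 : (4 * r + 1) * d ≤ n * d := Nat.mul_le_mul_right _ hn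
    have h3 : 2 * r * (a + s) = 2 * r * a + 2 * r * s := by ring
    have h4 : n * (b + d) = n * b + n * d := by ring
    have h5 : (4 * r + 1) * d = 4 * r * d + d := by ring
    omega

end Step

end MPf80667.B1
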