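import Mathlib

/-!
# MP_f80667_ag: HB/Smi.lean

Smith normal form of a square matrix with nonzero determinant over a discrete valuation ring.
-/

namespace MPf80667.B1

open Matrix

/-- Smith normal form over a discrete valuation ring. -/
theorem smith {O : Type*} [CommRing O] [IsDomain O] [IsDiscreteValuationRing O] {p : O}
    (hp : Irreducible p) {n : ℕ} (T : Matrix (Fin n) (Fin n) O) (hT : T.det ≠ 0) :
    ∃ (g g' : Matrix (Fin n) (Fin n) O) (a : Fin n → ℕ), IsUnit g.det ∧ IsUnit g'.det ∧
      T = g * diagonal (fun i => p ^ a i) * g' ∧ Associated T.det (p ^ (∑ i, a i)) := by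
  classical
  have hinj : Function.Injective T.mulVecLin := by
    rw [← LinearMap.ker_eq_bot, LinearMap.ker_eq_bot']
    intro v hv
    by_contra hv0
    exact hT (exists_mulVec_eq_zero_iff.mp ⟨v, hv0, hv⟩)
  let N : Submodule O (Fin n → O) := LinearMap.range T.mulVecLin
  let e : (Fin n → O) ≃ₗ[O] N := LinearEquiv.ofInjective T.mulVecLin hinj
  let bT : Module.Basis (Fin n) O N := (Pi.basisFun O (Fin n)).map e
  have hrank : Module.finrank O N = Module.finrank O (Fin n → O) := by
    rw [Module.finrank_eq_card_basis bT, Module.finrank_eq_card_basis (Pi.basisFun O (Fin n))]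
  obtain ⟨b', a, ab', hab⟩ :=
    Submodule.exists_smith_normal_form_of_rank_eq (Pi.basisFun O (Fin n)) hrank
  have ha : ∀ i, a i ≠ 0 := by
    intro i hi
    have h1 := hab i
    rw [hi, zero_smul] at h1
    exact ab'.ne_zero i (Subtype.ext h1)
  choose m u hu using fun i => IsDiscreteValuationRing.eq_unit_mul_pow_irreducible (ha i) hp
  let g0 : Matrix (Fin n) (Fin n) O := (Pi.basisFun O (Fin n)).toMatrix b'
  let g1 : Matrix (Fin n) (Fin n) O := ab'.toMatrix bT
  have hg0 : IsUnit g0.det := by
    have h1 : g0 * b'.toMatrix (Pi.basisFun O (Fin n)) = 1 :=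
      Module.Basis.toMatrix_mul_toMatrix_flip _ _
    have h2 := congrArg det h1
    rw [det_mul, det_one] at h2
    exact IsUnit.of_mul_eq_one _ h2
  have hg1 : IsUnit g1.det := by
    have h1 : g1 * bT.toMatrix ab' = 1 := Module.Basis.toMatrix_mul_toMatrix_flip _ _
    have h2 := congrArg det h1
    rw [det_mul, det_one] at h2
    exact IsUnit.of_mul_eq_one _ h2
  have hTg : T = g0 * diagonal a * g1 := by
    ext i j
    have h1 : ((bT j : N) : Fin n → O) = ∑ k, g1 k j • ((ab' k : N) : Fin n → O) := by
      have h2 : bT j = ∑ k, g1 k j • ab' k := (ab'.sum_toMatrix_smul_self bT j).symm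
      conv_lhs => rw [h2]
      simp
    have h3 : ((bT j : N) : Fin n → O) = T *ᵥ (Pi.single j 1) := by
      simp only [bT, e, Module.Basis.map_apply, Pi.basisFun_apply]
      rfl
    have h4 : (T *ᵥ (Pi.single j 1)) i = T i j := by simp
    rw [← h4, ← h3, h1, Finset.sum_apply, mul_apply]
    refine Finset.sum_congr rfl fun k _ => ?_
    rw [hab k, mul_diagonal]
    simp only [Pi.smul_apply, smul_eq_mul, g0, Module.Basis.toMatrix_apply, Pi.basisFun_repr]
    ring
  refine ⟨g0 * diagonal (fun i => (u i : O)), g1, m, ?_, hg1, ?_, ?_⟩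
  · rw [det_mul, det_diagonal]
    refine hg0.mul ?_
    rw [← Units.coe_prod]
    exact Units.isUnit _
  · have hd : (diagonal a : Matrix (Fin n) (Fin n) O) =
        diagonal (fun i => (u i : O)) * diagonal (fun i => p ^ m i) := by
      rw [diagonal_mul_diagonal]
      congr 1
      ext i
      rw [hu i]
    rw [hTg, hd]
    simp only [Matrix.mul_assoc]
  · have h1 : T.det = (g0.det * (∏ i, (u i : O)) * g1.det) * p ^ (∑ i, m i) := by
      rw [hTg, det_mul, det_mul, det_diagonal, ← Finset.prod_pow_eq_pow_sum]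
      have : ∏ i, a i = (∏ i, (u i : O)) * ∏ i, p ^ m i := by
        rw [← Finset.prod_mul_distrib]
        exact Finset.prod_congr rfl fun i _ => hu i
      rw [this]
      ring
    have h2 : IsUnit (g0.det * (∏ i, (u i : O)) * g1.det) := by
      refine (hg0.mul ?_).mul hg1
      rw [← Units.coe_prod]
      exact Units.isUnit _
    rw [h1]
    exact (associated_unit_mul_left (p ^ (∑ i, m i)) _ h2)

end MPf80667.B1
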