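import Mathlib

/-!
# MP_f80667_ag: HB/Wt.lean

The combinatorial lemma on weights. `a : Fin n → ℕ`, `b : Fin r → ℕ`, `4 r ≤ n`. If
`2 r Σ a + r n c < n Σ b` then there is an index `k` such that more than
`4 * #{l | b l < b k}` indices `s` satisfy `2 a s + c ≤ b k`.
-/

namespace MPf80667.B1

open Finset

/-- Layer cake: `b = #{t < M | t < b}` for `b ≤ M`. -/
private lemma card_lt_eq {M b : ℕ} (h : b ≤ M) : (((range M).filter (fun t => t < b)).card) = b := by
  have : (range M).filter (fun t => t < b) = range b := by
    ext t
    simp only [mem_filter, mem_range]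
    omega
  rw [this, card_range]

private lemma card_lt_le {M b : ℕ} : (((range M).filter (fun t => t < b)).card) ≤ b := by
  have : (range M).filter (fun t => t < b) ⊆ range b := by
    intro t
    simp only [mem_filter, mem_range]
    omega
  calc _ ≤ (range b).card := card_le_card this
    _ = b := card_range b

/-- The combinatorial lemma on weights. -/
theorem wt {n r : ℕ} (hn : 4 * r ≤ n) (a : Fin n → ℕ) (b : Fin r → ℕ) (c : ℕ)
    (h : 2 * r * (∑ s, a s) + r * n * c < n * (∑ k, b k)) :
    ∃ k : Fin r, 4 * (univ.filter (fun l => b l < b k)).card <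
      (univ.filter (fun s => 2 * a s + c ≤ b k)).card := by
  classical
  by_contra hcon
  push Not at hcon
  -- the bound on the layers
  set M := univ.sup b with hM
  have hbM : ∀ k, b k ≤ M := fun k => le_sup (mem_univ k)
  have key : ∀ t ∈ range M, (univ.filter (fun s => 2 * a s + c ≤ t)).card ≤
      4 * (univ.filter (fun l => b l ≤ t)).card := by
    intro t ht
    rw [mem_range] at ht
    -- smallest b k above t
    obtain ⟨k0, hk0⟩ : ∃ k, t < b k := by
      by_contra hne
      push Not at hne
      have : M ≤ t := Finset.sup_le (fun k _ => hne k)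
      omega
    obtain ⟨k, hk, hkmin⟩ := exists_min_image (univ.filter (fun k => t < b k)) b
      ⟨k0, by simpa using hk0⟩
    simp only [mem_filter, mem_univ, true_and] at hk hkmin
    calc (univ.filter (fun s => 2 * a s + c ≤ t)).card
        ≤ (univ.filter (fun s => 2 * a s + c ≤ b k)).card := by
          apply card_le_card
          intro s
          simp only [mem_filter, mem_univ, true_and]
          omega
      _ ≤ 4 * (univ.filter (fun l => b l < b k)).card := hcon k
      _ ≤ 4 * (univ.filter (fun l => b l ≤ t)).card := by
          apply Nat.mul_le_mul_left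
          apply card_le_card
          intro l
          simp only [mem_filter, mem_univ, true_and]
          intro hl
          by_contra hlt
          have := hkmin l (by omega)
          omega
  -- double counting
  have hb : ∑ k, b k + ∑ t ∈ range M, (univ.filter (fun l => b l ≤ t)).card = M * r := by
    have h1 : ∑ k, b k = ∑ t ∈ range M, (univ.filter (fun l => t < b l)).card := by
      have : ∀ k, b k = ((range M).filter (fun t => t < b k)).card := fun k =>
        (card_lt_eq (hbM k)).symm
      calc ∑ k, b k = ∑ k, ((range M).filter (fun t => t < b k)).card :=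
            sum_congr rfl (fun k _ => this k)
        _ = ∑ k, ∑ t ∈ range M, if t < b k then 1 else 0 := by
            simp only [card_filter]
        _ = ∑ t ∈ range M, ∑ k, if t < b k then 1 else 0 := sum_comm
        _ = _ := by simp only [card_filter]
    rw [h1, ← sum_add_distrib]
    have : ∀ t ∈ range M, (univ.filter (fun l => t < b l)).card +
        (univ.filter (fun l => b l ≤ t)).card = r := by
      intro t _
      have := card_filter_add_card_filter_not (s := (univ : Finset (Fin r)))
        (p := fun l => t < b l)
      simp only [not_lt, card_univ, Fintype.card_fin] at this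
      exact this
    rw [sum_congr rfl this, sum_const, card_range, smul_eq_mul]
  have ha : M * n ≤ ∑ s, (2 * a s + c) +
      ∑ t ∈ range M, (univ.filter (fun s => 2 * a s + c ≤ t)).card := by
    have h1 : ∑ t ∈ range M, (univ.filter (fun s => t < 2 * a s + c)).card ≤
        ∑ s, (2 * a s + c) := by
      calc ∑ t ∈ range M, (univ.filter (fun s => t < 2 * a s + c)).card
          = ∑ t ∈ range M, ∑ s, if t < 2 * a s + c then 1 else 0 := by simp only [card_filter]
        _ = ∑ s, ∑ t ∈ range M, if t < 2 * a s + c then 1 else 0 := sum_comm
        _ = ∑ s, ((range M).filter (fun t => t < 2 * a s + c)).card := by simp only [card_filter]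
        _ ≤ _ := sum_le_sum (fun s _ => card_lt_le)
    have h2 : ∑ t ∈ range M, (univ.filter (fun s => t < 2 * a s + c)).card +
        ∑ t ∈ range M, (univ.filter (fun s => 2 * a s + c ≤ t)).card = M * n := by
      rw [← sum_add_distrib]
      have : ∀ t ∈ range M, (univ.filter (fun s => t < 2 * a s + c)).card +
          (univ.filter (fun s => 2 * a s + c ≤ t)).card = n := by
        intro t _
        have := card_filter_add_card_filter_not (s := (univ : Finset (Fin n)))
          (p := fun s => t < 2 * a s + c)
        simp only [not_lt, card_univ, Fintype.card_fin] at this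
        exact this
      rw [sum_congr rfl this, sum_const, card_range, smul_eq_mul]
    omega
  have hs : ∑ t ∈ range M, (univ.filter (fun s => 2 * a s + c ≤ t)).card ≤
      4 * ∑ t ∈ range M, (univ.filter (fun l => b l ≤ t)).card := by
    rw [mul_sum]
    exact sum_le_sum key
  have hsum : ∑ s, (2 * a s + c) = 2 * (∑ s, a s) + n * c := by
    rw [sum_add_distrib, ← mul_sum, sum_const, card_univ, Fintype.card_fin, smul_eq_mul]
  rw [hsum] at ha
  set Sb := ∑ k, b k
  set Sa := ∑ s, a s
  set β := ∑ t ∈ range M, (univ.filter (fun l => b l ≤ t)).card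
  set σ := ∑ t ∈ range M, (univ.filter (fun s => 2 * a s + c ≤ t)).card
  -- r * (M n) ≤ r (2 Sa + n c) + r σ, σ ≤ 4 β, Sb + β = M r
  have e1 : r * (M * n) ≤ r * (2 * Sa + n * c) + r * (4 * β) :=
    calc r * (M * n) ≤ r * (2 * Sa + n * c + σ) := Nat.mul_le_mul_left _ ha
      _ ≤ r * (2 * Sa + n * c + 4 * β) := Nat.mul_le_mul_left _ (by omega)
      _ = _ := by ring
  have e2 : n * Sb + n * β = r * (M * n) := by
    calc n * Sb + n * β = n * (Sb + β) := by ring
      _ = n * (M * r) := by rw [hb]
      _ = _ := by ring
  have e3 : r * (4 * β) ≤ n * β :=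
    calc r * (4 * β) = (4 * r) * β := by ring
      _ ≤ n * β := Nat.mul_le_mul_right _ hn
  have e4 : r * (2 * Sa + n * c) = 2 * r * Sa + r * n * c := by ring
  omega

end MPf80667.B1
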