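import Mathlib
import Pool.Agent.Lib.MP_f80667_ag.HB.Wt
import Pool.Agent.Lib.MP_f80667_ag.HB.Smi
import Pool.Agent.Lib.MP_f80667_ag.HB.Lat

/-!
# MP_f80667_ag: HB/Apx.lean

If a system of `r` quadratic forms in `n > 4 r` variables over a discrete valuation ring has
models of large quality, and systems of fewer forms have primitive zeros, then the system has
approximate primitive zeros.
-/

namespace MPf80667.B1

open Matrix

variable {O : Type*} [CommRing O] [IsDomain O] [IsDiscreteValuationRing O] {p : O}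

/-- Invertible matrices preserve primitive vectors. -/
private lemma prim_mulVec {n : ℕ} {g : Matrix (Fin n) (Fin n) O} (hg : IsUnit g.det)
    {x : Fin n → O} (hx : ∃ i, IsUnit (x i)) : ∃ i, IsUnit ((g *ᵥ x) i) := by
  by_contra hcon
  push Not at hcon
  obtain ⟨i, hi⟩ := hx
  have h1 : x = g⁻¹ *ᵥ (g *ᵥ x) := by
    rw [mulVec_mulVec, nonsing_inv_mul _ hg, one_mulVec]
  have h2 : x i ∈ IsLocalRing.maximalIdeal O := by
    rw [h1]
    change ∑ j, g⁻¹ i j * (g *ᵥ x) j ∈ IsLocalRing.maximalIdeal O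
    exact Ideal.sum_mem _ fun j _ => Ideal.mul_mem_left _ _ (hcon j)
  exact h2 hi

theorem approx {n r : ℕ} (hp : Irreducible p) (hn : 4 * r < n)
    {A : Fin r → Matrix (Fin n) (Fin n) O} {T : Matrix (Fin n) (Fin n) O}
    {R : Matrix (Fin r) (Fin r) O} {B : Fin r → Matrix (Fin n) (Fin n) O} {a b : ℕ}
    (hst : St p A T R B a b) (c : ℕ) (hj : 2 * r * a + (r * n * c + 1) ≤ n * b)
    (IH : ∀ r' < r, ∀ n', 4 * r' < n' → ∀ A' : Fin r' → Matrix (Fin n') (Fin n') O,
      ∃ x : Fin n' → O, (∃ i, IsUnit (x i)) ∧ ∀ k, qv (A' k) x = 0) :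
    ∃ x : Fin n → O, (∃ i, IsUnit (x i)) ∧ ∀ k, p ^ c ∣ qv (A k) x := by
  classical
  have hp0 : p ≠ 0 := hp.ne_zero
  have hTne : T.det ≠ 0 := by
    intro h0
    exact pow_ne_zero a hp0 (hst.hT.eq_zero_iff.mp h0)
  have hRne : R.det ≠ 0 := by
    intro h0
    exact pow_ne_zero b hp0 (hst.hR.eq_zero_iff.mp h0)
  have hassoc : ∀ u v : ℕ, Associated (p ^ u) (p ^ v) → u = v := by
    intro u v h
    exact le_antisymm ((pow_dvd_pow_iff hp0 hp.not_isUnit).mp h.dvd)
      ((pow_dvd_pow_iff hp0 hp.not_isUnit).mp h.symm.dvd)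
  obtain ⟨g, g', α, hg, hg', hTe, hTa⟩ := smith hp T hTne
  obtain ⟨h, h', β, hh, hh', hRe, hRa⟩ := smith hp R hRne
  have hα : ∑ i, α i = a := hassoc _ _ (hTa.symm.trans hst.hT)
  have hβ : ∑ i, β i = b := hassoc _ _ (hRa.symm.trans hst.hR)
  obtain ⟨k0, hk0⟩ := wt hn.le α β c (by rw [hα, hβ]; omega)
  set K : Finset (Fin r) := Finset.univ.filter (fun l => β l < β k0) with hK
  set S : Finset (Fin n) := Finset.univ.filter (fun s => 2 * α s + c ≤ β k0) with hS
  have hKr : K.card < r := by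
    have h1 : K ⊂ Finset.univ := by
      rw [Finset.ssubset_univ_iff]
      intro h2
      have h3 : k0 ∈ K := by
        rw [h2]
        exact Finset.mem_univ _
      simp [hK] at h3
    simpa using Finset.card_lt_card h1
  -- the forms on the sublattice
  let At : Fin r → Matrix (Fin n) (Fin n) O := fun l => ∑ k, h⁻¹ l k • (gᵀ * A k * g)
  have hAt : ∀ l x, qv (At l) x = (h⁻¹ *ᵥ (fun k => qv (A k) (g *ᵥ x))) l := by
    intro l x
    have h1 : (h⁻¹ *ᵥ (fun k => qv (A k) (g *ᵥ x))) l =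
        ∑ k, h⁻¹ l k * qv (A k) (g *ᵥ x) := rfl
    rw [h1]
    simp only [At]
    rw [qv_sum]
    refine Finset.sum_congr rfl fun k _ => ?_
    rw [qv_mulVec]
  let eS := S.equivFin
  let eK := K.equivFin
  let E : Matrix (Fin n) (Fin S.card) O :=
    Matrix.of (fun i j => if ((eS.symm j : S) : Fin n) = i then 1 else 0)
  obtain ⟨x', ⟨j0, hj0⟩, hx'⟩ := IH K.card hKr S.card hk0
    (fun i => Eᵀ * At (eK.symm i) * E)
  set x : Fin n → O := E *ᵥ x' with hx
  have hxS : ∀ j, x ((eS.symm j : S) : Fin n) = x' j := by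
    intro j
    have h1 : x ((eS.symm j : S) : Fin n) =
        ∑ j', (if ((eS.symm j' : S) : Fin n) = ((eS.symm j : S) : Fin n) then 1 else 0) * x' j' :=
      rfl
    rw [h1, Finset.sum_eq_single j]
    · simp
    · intro j' _ hne
      rw [if_neg, zero_mul]
      intro h2
      exact hne (eS.symm.injective (Subtype.ext h2))
    · intro h2
      exact absurd (Finset.mem_univ j) h2
  have hx0 : ∀ i, i ∉ S → x i = 0 := by
    intro i hi
    have h1 : x i = ∑ j', (if ((eS.symm j' : S) : Fin n) = i then 1 else 0) * x' j' := rfl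
    rw [h1]
    refine Finset.sum_eq_zero fun j' _ => ?_
    rw [if_neg, zero_mul]
    rintro rfl
    exact hi (eS.symm j').2
  have hxprim : ∃ i, IsUnit (x i) := ⟨_, by rw [hxS j0]; exact hj0⟩
  have hxK : ∀ l ∈ K, qv (At l) x = 0 := by
    intro l hl
    have h1 := hx' (eK ⟨l, hl⟩)
    simp only [Equiv.symm_apply_apply] at h1
    rw [hx, qv_mulVec]
    exact h1
  -- the scaling
  have hSne : S.Nonempty := ⟨_, (eS.symm j0).2⟩
  set m := S.sup α with hm
  obtain ⟨s0, hs0, hms0⟩ := Finset.exists_mem_eq_sup S hSne α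
  have hmc : 2 * m + c ≤ β k0 := by
    rw [hS, Finset.mem_filter] at hs0
    have := hs0.2
    rw [hm, hms0]
    exact this
  have hαm : ∀ i ∈ S, α i ≤ m := fun i hi => Finset.le_sup hi
  let z : Fin n → O := fun i => p ^ (m - α i) * x i
  have hz : diagonal (fun i => p ^ α i) *ᵥ z = p ^ m • x := by
    ext i
    rw [mulVec_diagonal]
    by_cases hi : i ∈ S
    · simp only [z, Pi.smul_apply, smul_eq_mul]
      rw [← mul_assoc, ← pow_add]
      congr 2
      have := hαm i hi
      omega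
    · simp only [z, Pi.smul_apply, smul_eq_mul, hx0 i hi, mul_zero]
  have hTz : T *ᵥ (g'⁻¹ *ᵥ z) = p ^ m • (g *ᵥ x) := by
    rw [hTe, ← mulVec_mulVec, ← mulVec_mulVec, mulVec_mulVec z g' g'⁻¹, mul_nonsing_inv _ hg',
      one_mulVec, hz, mulVec_smul]
  set v : Fin r → O := fun k => qv (A k) (g *ᵥ x) with hv
  set w : Fin r → O := fun l => qv (B l) (g'⁻¹ *ᵥ z) with hw
  have hvw : p ^ (2 * m) • v = R *ᵥ w := by
    ext k
    have h1 := hst.hq (g'⁻¹ *ᵥ z) k
    rw [hTz, qv_smul_vec] at h1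
    rw [Pi.smul_apply, smul_eq_mul, mul_comm 2 m, pow_mul]
    exact h1
  set u : Fin r → O := h⁻¹ *ᵥ v with hu
  have huw : p ^ (2 * m) • u = diagonal (fun i => p ^ β i) *ᵥ (h' *ᵥ w) := by
    rw [hu, ← mulVec_smul, hvw, hRe, ← mulVec_mulVec, ← mulVec_mulVec, mulVec_mulVec _ h⁻¹ h,
      nonsing_inv_mul _ hh, one_mulVec]
  have hudiv : ∀ l, p ^ c ∣ u l := by
    intro l
    by_cases hl : l ∈ K
    · have h1 := hxK l hl
      rw [hAt] at h1
      have h2 : u l = 0 := h1
      rw [h2]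
      exact dvd_zero _
    · have hβl : β k0 ≤ β l := by
        by_contra hlt
        exact hl (by simp only [hK, Finset.mem_filter, Finset.mem_univ, true_and]; omega)
      have h1 := congrFun huw l
      rw [mulVec_diagonal, Pi.smul_apply, smul_eq_mul] at h1
      have h2 : p ^ (2 * m) * p ^ c ∣ p ^ (2 * m) * u l := by
        rw [h1, ← pow_add]
        exact Dvd.dvd.mul_right (pow_dvd_pow p (hmc.trans hβl)) _
      exact (mul_dvd_mul_iff_left (pow_ne_zero _ hp0)).mp h2
  refine ⟨g *ᵥ x, prim_mulVec hg hxprim, fun k => ?_⟩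
  have h1 : v = h *ᵥ u := by
    rw [hu, mulVec_mulVec, mul_nonsing_inv _ hh, one_mulVec]
  have h2 : qv (A k) (g *ᵥ x) = ∑ l, h k l * u l := by
    have := congrFun h1 k
    exact this
  rw [h2]
  exact Finset.dvd_sum fun l _ => Dvd.dvd.mul_left (hudiv l) _

end MPf80667.B1
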