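import Mathlib
import Pool.Agent.Lib.MP_f80667_ag.HensQ
import Pool.Agent.Lib.MP_f80667_ag.Gs
import Pool.Agent.Lib.MP_f80667_ag.HB.Apx

/-!
# MP_f80667_ag: HB/Main.lean

Systems of `r` quadratic forms in more than `4 r` variables over a complete discretely valued
field whose residue field is finite and large have a common nontrivial zero.
-/

namespace MPf80667.B1

open Matrix IsLocalRing

universe u v

/-- A nonzero vector is a power of the uniformizer times a primitive vector. -/
private lemma exists_prim {O : Type*} [CommRing O] [IsDomain O] [IsDiscreteValuationRing O] {p : O}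
    (hp : Irreducible p) {n : ℕ} {x : Fin n → O} (hx : x ≠ 0) :
    ∃ (m : ℕ) (x' : Fin n → O), x = p ^ m • x' ∧ ∃ i, IsUnit (x' i) := by
  classical
  obtain ⟨i0, hi0⟩ : ∃ i, x i ≠ 0 := by
    by_contra hcon
    push Not at hcon
    exact hx (funext hcon)
  have hex : ∃ m : ℕ, ¬ ∀ i, p ^ m ∣ x i := by
    obtain ⟨m, u, hu⟩ := IsDiscreteValuationRing.eq_unit_mul_pow_irreducible hi0 hp
    refine ⟨m + 1, fun h => ?_⟩
    have h1 := h i0
    rw [hu, Units.dvd_mul_left] at h1
    have h2 := (pow_dvd_pow_iff hp.ne_zero hp.not_isUnit).mp h1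
    omega
  have hfind := Nat.find_spec hex
  have hpos : Nat.find hex ≠ 0 := by
    intro h0
    rw [h0] at hfind
    exact hfind fun i => by simp
  obtain ⟨m, hm⟩ := Nat.exists_eq_succ_of_ne_zero hpos
  have hmin : ∀ i, p ^ m ∣ x i := by
    have h1 := Nat.find_min hex (m := m) (by omega)
    exact not_not.mp h1
  choose x' hx' using hmin
  refine ⟨m, x', funext hx', ?_⟩
  by_contra hcon
  push Not at hcon
  apply hfind
  rw [hm]
  intro i
  have h1 : p ∣ x' i := by
    have h2 : x' i ∈ maximalIdeal O := hcon i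
    rwa [hp.maximalIdeal_eq, Ideal.mem_span_singleton] at h2
  rw [hx' i, pow_succ]
  exact mul_dvd_mul_left _ h1

/-- The case of `n = 4 r + 1` variables from the smaller cases. -/
private lemma main_case {O : Type u} [CommRing O] [IsDomain O] [IsDiscreteValuationRing O]
    [IsAdicComplete (maximalIdeal O) O] [Finite (ResidueField O)] {n r : ℕ} (hn : 4 * r < n)
    (hr : 0 < r)
    (hfin : ∀ A : Fin r → Matrix (Fin n) (Fin n) (ResidueField O), Star A →
      ∃ x : Fin n → ResidueField O, (∀ k, qv (A k) x = 0) ∧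
        LinearIndependent (ResidueField O) (fun k => (A k + (A k)ᵀ) *ᵥ x))
    (IH : ∀ r' < r, ∀ n', 4 * r' < n' → ∀ A' : Fin r' → Matrix (Fin n') (Fin n') O,
      ∃ x : Fin n' → O, (∃ i, IsUnit (x i)) ∧ ∀ k, qv (A' k) x = 0)
    (A : Fin r → Matrix (Fin n) (Fin n) O) :
    ∃ x : Fin n → O, (∃ i, IsUnit (x i)) ∧ ∀ k, qv (A k) x = 0 := by
  classical
  obtain ⟨p, hp⟩ := IsDiscreteValuationRing.exists_irreducible O
  have hker : ∀ x : O, residue O x = 0 ↔ p ∣ x := by
    intro x
    rw [residue_eq_zero_iff, hp.maximalIdeal_eq, Ideal.mem_span_singleton]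
  by_cases hall : ∀ T R B a b, St p A T R B a b → ¬ Star (fun k => (B k).map (residue O))
  · refine cpt (IsNoetherian.noetherian _) A fun c => ?_
    obtain ⟨T, R, B, a, b, hst, hab⟩ := iter (residue O) hp residue_surjective hker hn A hall
      (r * n * c + 1)
    obtain ⟨x, hx, hxc⟩ := approx hp hn hst c hab IH
    refine ⟨x, hx, fun k => ?_⟩
    rw [hp.maximalIdeal_eq, Ideal.span_singleton_pow, Ideal.mem_span_singleton]
    exact hxc k
  · push Not at hall
    obtain ⟨T, R, B, a, b, hst, hstar⟩ := hall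
    obtain ⟨x0, hx0, hlin⟩ := hfin _ hstar
    obtain ⟨y, hy, hy0⟩ := Pool.Agent.Lib.MP_f80667_ag.hensel_quad B x0 hx0 hlin
    have hx0ne : x0 ≠ 0 := by
      rintro rfl
      have h1 := hlin.ne_zero ⟨0, hr⟩
      exact h1 (mulVec_zero _)
    have hyne : y ≠ 0 := by
      rintro rfl
      apply hx0ne
      ext i
      rw [← hy i]
      simp
    have hTy : T *ᵥ y ≠ 0 := by
      intro h0
      have h1 : T.det ≠ 0 := by
        intro h2
        exact pow_ne_zero a hp.ne_zero (hst.hT.eq_zero_iff.mp h2)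
      exact h1 (exists_mulVec_eq_zero_iff.mp ⟨y, hyne, h0⟩)
    obtain ⟨m, x, hx, hxp⟩ := exists_prim hp hTy
    refine ⟨x, hxp, fun k => ?_⟩
    have h1 := hst.hq y k
    have h2 : ∑ l, R k l * qv (B l) y = 0 := Finset.sum_eq_zero fun l _ => by
      rw [show qv (B l) y = 0 from hy0 l, mul_zero]
    rw [h2, hx, qv_smul_vec] at h1
    exact (mul_eq_zero.mp h1).resolve_left (pow_ne_zero _ (pow_ne_zero _ hp.ne_zero))

/-- Integral form: `r` quadratic forms in more than `4 r` variables over a complete discrete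
valuation ring with large finite residue field have a common primitive zero. -/
theorem hbO (r : ℕ) : ∃ C : ℕ, ∀ (O : Type u) [CommRing O] [IsDomain O]
    [IsDiscreteValuationRing O] [IsAdicComplete (maximalIdeal O) O] [Finite (ResidueField O)],
    C ≤ Nat.card (ResidueField O) → ∀ n, 4 * r < n → ∀ A : Fin r → Matrix (Fin n) (Fin n) O,
    ∃ x : Fin n → O, (∃ i, IsUnit (x i)) ∧ ∀ k, qv (A k) x = 0 := by
  induction r using Nat.strong_induction_on with
  | _ r IH =>
    choose Cf hCf using IH
    obtain ⟨C0, hC0⟩ := MP_f80667_ag.Gs.fin_zero.{u} r (4 * r + 1)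
    refine ⟨C0 + ∑ m : Fin r, Cf m m.2, fun O _ _ _ _ _ hC n hn A => ?_⟩
    -- the case of 4 r + 1 variables
    have hmain : ∀ A : Fin r → Matrix (Fin (4 * r + 1)) (Fin (4 * r + 1)) O,
        ∃ x : Fin (4 * r + 1) → O, (∃ i, IsUnit (x i)) ∧ ∀ k, qv (A k) x = 0 := by
      intro A
      rcases Nat.eq_zero_or_pos r with hr | hr
      · subst hr
        exact ⟨fun _ => 1, ⟨0, isUnit_one⟩, fun k => k.elim0⟩
      · refine main_case (Nat.lt_succ_self _) hr (fun A hA => ?_) (fun r' hr' n' hn' A' => ?_) A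
        · exact hC0 (ResidueField O) (by omega) A hA
        · refine hCf r' hr' O ?_ n' hn' A'
          have h1 : Cf r' hr' ≤ ∑ m : Fin r, Cf m m.2 :=
            Finset.single_le_sum (f := fun m : Fin r => Cf m m.2) (fun _ _ => Nat.zero_le _)
              (Finset.mem_univ (⟨r', hr'⟩ : Fin r))
          omega
    let e : Fin (4 * r + 1) → Fin n := Fin.castLE hn
    let E : Matrix (Fin n) (Fin (4 * r + 1)) O := Matrix.of (fun i j => if e j = i then 1 else 0)
    obtain ⟨x, ⟨j, hj⟩, hx⟩ := hmain (fun k => Eᵀ * A k * E)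
    refine ⟨E *ᵥ x, ⟨e j, ?_⟩, fun k => by rw [qv_mulVec]; exact hx k⟩
    have h1 : (E *ᵥ x) (e j) = ∑ j', (if e j' = e j then 1 else 0) * x j' := rfl
    rw [h1, Finset.sum_eq_single j]
    · simpa using hj
    · intro j' _ hne
      rw [if_neg, zero_mul]
      intro h2
      exact hne (Fin.castLE_injective hn h2)
    · intro h2
      exact absurd (Finset.mem_univ j) h2

/-- **Heath-Brown's theorem**, all residue characteristics: `r` quadratic forms in more than
`4 r` variables over a complete discretely valued field whose residue field is finite and large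
have a common nontrivial zero. -/
theorem hb (r : ℕ) : ∃ C : ℕ, ∀ (O : Type u) [CommRing O] [IsDomain O]
    [IsDiscreteValuationRing O] [IsAdicComplete (maximalIdeal O) O] [Finite (ResidueField O)]
    (K : Type v) [Field K] [Algebra O K] [IsFractionRing O K],
    C ≤ Nat.card (ResidueField O) → ∀ n, 4 * r < n → ∀ A : Fin r → Matrix (Fin n) (Fin n) K,
    ∃ x : Fin n → K, x ≠ 0 ∧ ∀ i, x ⬝ᵥ ((A i).mulVec x) = 0 := by
  classical
  obtain ⟨C, hC⟩ := hbO.{u} r
  refine ⟨C, fun O _ _ _ _ _ K _ _ _ hcard n hn A => ?_⟩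
  obtain ⟨b, hb⟩ := IsLocalization.exist_integer_multiples_of_finite (nonZeroDivisors O)
    (fun t : Fin r × Fin n × Fin n => A t.1 t.2.1 t.2.2)
  choose a ha using hb
  obtain ⟨x, ⟨i0, hi0⟩, hx⟩ := hC O hcard n hn (fun k => Matrix.of (fun i j => a (k, i, j)))
  have hinj : Function.Injective (algebraMap O K) := IsFractionRing.injective O K
  refine ⟨fun i => algebraMap O K (x i), ?_, fun k => ?_⟩
  · intro h0
    have h1 : algebraMap O K (x i0) = 0 := congrFun h0 i0
    rw [map_eq_zero_iff _ hinj] at h1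
    exact hi0.ne_zero h1
  · have h1 := congrArg (algebraMap O K) (hx k)
    rw [map_zero, qv_map] at h1
    have h2 : (Matrix.of (fun i j => a (k, i, j))).map (algebraMap O K) =
        algebraMap O K b • A k := by
      ext i j
      have h3 : algebraMap O K (a (k, i, j)) = (b : O) • A k i j := ha (k, i, j)
      simp only [Matrix.map_apply, Matrix.of_apply, Matrix.smul_apply, smul_eq_mul]
      rw [h3, Algebra.smul_def]
    rw [h2] at h1
    unfold qv at h1
    rw [smul_mulVec, dotProduct_smul, smul_eq_mul] at h1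
    refine (mul_eq_zero.mp h1).resolve_left ?_
    intro h3
    rw [map_eq_zero_iff _ hinj] at h3
    exact nonZeroDivisors.ne_zero b.2 h3

end MPf80667.B1
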